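import Pool.Agent.H36.GX.Defs
import Pool.Agent.H36.OX.Base

/-!
# Project GX: auxiliary definitions (not used in the statement)
-/

set_option autoImplicit false

namespace Pool.Agent.H36.GX

open Pool.Agent.H66.NCL Pool.Agent.H36.OX

universe u v

/-- the map from the vertex group -/
def GraphProduct.of {V : Type u} (E : SimpleGraph V) (G : V → Type u) [∀ v, Group (G v)] (v : V) :
    G v →* GraphProduct E G :=
  (QuotientGroup.mk' (Subgroup.normalClosure
    {x : Monoid.CoprodI G | ∃ (v w : V) (g : G v) (h : G w), E.Adj v w ∧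
      x = Monoid.CoprodI.of g * Monoid.CoprodI.of h * (Monoid.CoprodI.of g)⁻¹ *
        (Monoid.CoprodI.of h)⁻¹})).comp Monoid.CoprodI.of

/-- the value of a word, for equal vertex groups -/
def gev {V : Type u} (E : SimpleGraph V) (X : Type u) [Group X] (ω : List (V × X)) :
    GraphProduct E fun _ : V => X :=
  (ω.map fun p => GraphProduct.of E (fun _ : V => X) p.1 p.2).prod

/-- different vertices which are not adjacent -/
def nc {V : Type u} (E : SimpleGraph V) (v w : V) : Prop := v ≠ w ∧ ¬ E.Adj v w

open Classical in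
/-- the coefficient of the word `L` in the product of the matrices of the letters of `ω` -/
noncomputable def lcf {V : Type u} {X : Type v} [Group X] : List (V × X) → List (V × X) → ℤ
  | _, [] => 1
  | [], _ :: _ => 0
  | p :: ω, q :: L =>
    if q.1 = p.1 then lcf ω ((p.1, p.2⁻¹ * q.2) :: L) +
      ((if q.2 = p.2 then 1 else 0) - (if q.2 = 1 then 1 else 0)) * lcf ω L
    else lcf ω (q :: L)

/-- `i n * x t * q` determines `n`, `t`, `q`, for `q` in a suitable set `Pos` -/
structure IsPos {N T Q : Type u} [Group N] [Group Q] (i : N →* Q) (x : T → Q) (Pos : Q → Prop) :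
    Prop where
  one : Pos 1
  mul : ∀ n t q, Pos q → Pos (i n * x t * q)
  inj : ∀ n t q n' t' q', Pos q → Pos q' → i n * x t * q = i n' * x t' * q' → n = n' ∧ t = t' ∧ q = q'

end Pool.Agent.H36.GX
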