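import Pool.Agent.H36.GX.Base
import Pool.Agent.H66.NCL.Words

/-!
# Project GX: the universal property of graph products, reduced words
-/

set_option autoImplicit false

namespace Pool.Agent.H36.GX

open Pool.Agent.H66.NCL Pool.Agent.H36.OX

universe u v w

/-- the quotient map -/
private def gpMk {V : Type u} (E : SimpleGraph V) (G : V → Type u) [∀ v, Group (G v)] :
    Monoid.CoprodI G →* GraphProduct E G :=
  QuotientGroup.mk' (Subgroup.normalClosure
    {x : Monoid.CoprodI G | ∃ (v w : V) (g : G v) (h : G w), E.Adj v w ∧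
      x = Monoid.CoprodI.of g * Monoid.CoprodI.of h * (Monoid.CoprodI.of g)⁻¹ *
        (Monoid.CoprodI.of h)⁻¹})

private theorem gpMk_surj {V : Type u} (E : SimpleGraph V) (G : V → Type u)
    [∀ v, Group (G v)] : Function.Surjective (gpMk E G) :=
  QuotientGroup.mk'_surjective _

private theorem gpMk_of {V : Type u} (E : SimpleGraph V) (G : V → Type u)
    [∀ v, Group (G v)] (v : V) (g : G v) :
    gpMk E G (Monoid.CoprodI.of g) = GraphProduct.of E G v g := rfl

theorem GraphProduct.commute {V : Type u} (E : SimpleGraph V) (G : V → Type u)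
    [∀ v, Group (G v)] {v w : V} (h : E.Adj v w) (g : G v) (g' : G w) :
    Commute (GraphProduct.of E G v g) (GraphProduct.of E G w g') := by
  have h1 : (Monoid.CoprodI.of g * Monoid.CoprodI.of g' * (Monoid.CoprodI.of g)⁻¹ *
      (Monoid.CoprodI.of g')⁻¹ : Monoid.CoprodI G) ∈ Subgroup.normalClosure
    {x : Monoid.CoprodI G | ∃ (v w : V) (g : G v) (h : G w), E.Adj v w ∧
      x = Monoid.CoprodI.of g * Monoid.CoprodI.of h * (Monoid.CoprodI.of g)⁻¹ *
        (Monoid.CoprodI.of h)⁻¹} := Subgroup.subset_normalClosure ⟨v, w, g, g', h, rfl⟩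
  have h2 : gpMk E G (Monoid.CoprodI.of g * Monoid.CoprodI.of g' * (Monoid.CoprodI.of g)⁻¹ *
      (Monoid.CoprodI.of g')⁻¹) = 1 := (QuotientGroup.eq_one_iff _).2 h1
  rw [map_mul, map_mul, map_mul, map_inv, map_inv, gpMk_of, gpMk_of] at h2
  have h3 := mul_eq_one_iff_eq_inv.1 h2
  rw [inv_inv] at h3
  exact mul_inv_eq_iff_eq_mul.1 h3

theorem GraphProduct.exists_lift {V : Type u} (E : SimpleGraph V) (G : V → Type u)
    [∀ v, Group (G v)] {M : Type w} [Monoid M] (f : ∀ v, G v →* M)
    (hf : ∀ v w, E.Adj v w → ∀ (g : G v) (g' : G w), Commute (f v g) (f w g')) :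
    ∃ F : GraphProduct E G →* M, ∀ v g, F (GraphProduct.of E G v g) = f v g := by
  have hN : Subgroup.normalClosure
    {x : Monoid.CoprodI G | ∃ (v w : V) (g : G v) (h : G w), E.Adj v w ∧
      x = Monoid.CoprodI.of g * Monoid.CoprodI.of h * (Monoid.CoprodI.of g)⁻¹ *
        (Monoid.CoprodI.of h)⁻¹} ≤ (Monoid.CoprodI.lift f).ker := by
    apply Subgroup.normalClosure_le_normal
    rintro x ⟨v, w, g, h, hvw, rfl⟩
    rw [SetLike.mem_coe, MonoidHom.mem_ker, ← map_inv, ← map_inv, map_mul, map_mul, map_mul,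
      Monoid.CoprodI.lift_of, Monoid.CoprodI.lift_of, Monoid.CoprodI.lift_of,
      Monoid.CoprodI.lift_of, (hf v w hvw g h).eq, mul_assoc (f w h), ← map_mul,
      mul_inv_cancel, map_one, mul_one, ← map_mul, mul_inv_cancel, map_one]
  refine ⟨QuotientGroup.lift _ (Monoid.CoprodI.lift f) hN, fun v g => ?_⟩
  have h1 : QuotientGroup.lift _ (Monoid.CoprodI.lift f) hN
      ((Monoid.CoprodI.of g : Monoid.CoprodI G) : Monoid.CoprodI G ⧸ _) =
      Monoid.CoprodI.lift f (Monoid.CoprodI.of g) := QuotientGroup.lift_mk' _ hN _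
  rw [Monoid.CoprodI.lift_of] at h1
  exact h1

theorem GraphProduct.hom_ext {V : Type u} (E : SimpleGraph V) (G : V → Type u)
    [∀ v, Group (G v)] {M : Type w} [Monoid M] (f g : GraphProduct E G →* M)
    (h : ∀ v x, f (GraphProduct.of E G v x) = g (GraphProduct.of E G v x)) : f = g := by
  have h1 : f.comp (gpMk E G) = g.comp (gpMk E G) := by
    apply Monoid.CoprodI.ext_hom
    intro v
    apply MonoidHom.ext
    intro x
    exact h v x
  apply MonoidHom.ext
  intro x
  obtain ⟨y, rfl⟩ := gpMk_surj E G x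
  exact DFunLike.congr_fun h1 y

private theorem gev_append {V : Type u} (E : SimpleGraph V) (X : Type u) [Group X]
    (ω ω' : List (V × X)) : gev E X (ω ++ ω') = gev E X ω * gev E X ω' := by
  unfold gev
  rw [List.map_append, List.prod_append]

private theorem gev_cons {V : Type u} (E : SimpleGraph V) (X : Type u) [Group X]
    (p : V × X) (ω : List (V × X)) :
    gev E X (p :: ω) = GraphProduct.of E (fun _ : V => X) p.1 p.2 * gev E X ω := by
  unfold gev
  rw [List.map_cons, List.prod_cons]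

theorem gev_surjective {V : Type u} (E : SimpleGraph V) (X : Type u) [Group X] :
    Function.Surjective (gev E X) := by
  intro x
  obtain ⟨y, rfl⟩ := gpMk_surj E (fun _ : V => X) x
  induction y using Monoid.CoprodI.induction_on with
  | one => exact ⟨[], by rw [map_one]; rfl⟩
  | of i m => exact ⟨[(i, m)], by rw [gev_cons, gpMk_of]; exact mul_one _⟩
  | mul x y hx hy =>
    obtain ⟨ω, hω⟩ := hx
    obtain ⟨ω', hω'⟩ := hy
    exact ⟨ω ++ ω', by rw [gev_append, hω, hω', map_mul]⟩

private theorem gev_comm {V : Type u} (E : SimpleGraph V) (X : Type u) [Group X]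
    (s : V) (x : X) (ω : List (V × X)) (h : ∀ p ∈ ω, E.Adj s p.1) :
    Commute (GraphProduct.of E (fun _ : V => X) s x) (gev E X ω) := by
  induction ω with
  | nil => exact Commute.one_right _
  | cons p ω ih =>
    rw [gev_cons]
    exact (GraphProduct.commute E (fun _ : V => X) (h p List.mem_cons_self) x p.2).mul_right
      (ih fun q hq => h q (List.mem_cons_of_mem _ hq))

/-- reduced words: they have no trivial letters, and are reduced as words in the vertices -/
theorem exists_reduced {V : Type u} (E : SimpleGraph V) (X : Type u) [Group X]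
    (g : GraphProduct E fun _ : V => X) : ∃ ω : List (V × X), gev E X ω = g ∧
      (∀ p ∈ ω, p.2 ≠ 1) ∧ Red (nc E) (ω.map Prod.fst) ∧
      ∀ ω' : List (V × X), gev E X ω' = g → ω.length ≤ ω'.length := by
  classical
  have hex : ∃ k : ℕ, ∃ ω : List (V × X), gev E X ω = g ∧ ω.length = k := by
    obtain ⟨ω, hω⟩ := gev_surjective E X g
    exact ⟨ω.length, ω, hω, rfl⟩
  obtain ⟨ω, hω, hk⟩ := Nat.find_spec hex
  have hmin : ∀ ω' : List (V × X), gev E X ω' = g → ω.length ≤ ω'.length := by
    intro ω' hω'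
    rw [hk]
    exact Nat.find_min' hex ⟨ω', hω', rfl⟩
  refine ⟨ω, hω, ?_, ?_, hmin⟩
  · intro p hp h1
    obtain ⟨l₁, l₂, rfl⟩ := List.append_of_mem hp
    have h2 := hmin (l₁ ++ l₂) (by
      rw [← hω, gev_append, gev_append, gev_cons, h1, map_one, one_mul])
    simp only [List.length_append, List.length_cons] at h2
    omega
  · intro l₁ l₂ l₃ s h1
    by_contra hc
    have hc' : ∀ c ∈ l₂, c ≠ s → E.Adj s c := by
      intro c hcl hcs
      by_contra hadj
      exact hc ⟨c, hcl, fun h => hcs h.symm, hadj⟩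
    -- the next occurrence of `s`
    obtain ⟨m₁, m₂, h2, hadj⟩ : ∃ m₁ m₂, l₂ ++ s :: l₃ = m₁ ++ s :: m₂ ∧ ∀ c ∈ m₁, E.Adj s c := by
      by_cases hs : s ∈ l₂
      · obtain ⟨m₁, m₂, h3, h4⟩ := List.eq_append_cons_of_mem hs
        refine ⟨m₁, m₂ ++ s :: l₃, by rw [h3, List.append_assoc, List.cons_append], ?_⟩
        intro c hcm
        apply hc' c (by rw [h3]; exact List.mem_append_left _ hcm)
        rintro rfl
        exact h4 hcm
      · refine ⟨l₂, l₃, rfl, fun c hcl => hc' c hcl ?_⟩
        rintro rfl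
        exact hs hcl
    rw [h2] at h1
    obtain ⟨L₁, R₁, rfl, hL₁, hR₁⟩ := List.map_eq_append_iff.1 h1
    obtain ⟨p, R₂, rfl, hp, hR₂⟩ := List.map_eq_cons_iff.1 hR₁
    obtain ⟨M₁, R₃, rfl, hM₁, hR₃⟩ := List.map_eq_append_iff.1 hR₂
    obtain ⟨q, M₂, rfl, hq, hM₂⟩ := List.map_eq_cons_iff.1 hR₃
    obtain ⟨p1, p2⟩ := p
    obtain ⟨q1, q2⟩ := q
    have hp' : p1 = s := hp
    have hq' : q1 = s := hq
    subst hp'
    subst hq'
    have hcomm := gev_comm E X q1 p2 M₁ (fun r hr => hadj r.1 (by
      rw [← hM₁]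
      exact List.mem_map_of_mem hr))
    have h3 := hmin (L₁ ++ (M₁ ++ (q1, p2 * q2) :: M₂)) (by
      rw [← hω, gev_append, gev_append, gev_append, gev_cons, gev_cons, gev_append, gev_cons,
        map_mul]
      congr 1
      rw [← mul_assoc _ (gev E X M₁), hcomm.eq, mul_assoc, mul_assoc])
    simp only [List.length_append, List.length_cons] at h3
    omega

theorem GraphProduct.exists_const {V : Type u} (E : SimpleGraph V) (G : V → Type u)
    [∀ v, Group (G v)] : ∃ f : GraphProduct E G →* GraphProduct E (fun _ : V => ∀ v, G v),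
      Function.Injective f := by
  classical
  obtain ⟨F, hF⟩ := GraphProduct.exists_lift E G
    (fun v => (GraphProduct.of E (fun _ : V => ∀ v, G v) v).comp (MonoidHom.mulSingle G v))
    (fun v w hvw g g' => GraphProduct.commute E (fun _ : V => ∀ v, G v) hvw _ _)
  obtain ⟨F', hF'⟩ := GraphProduct.exists_lift E (fun _ : V => ∀ v, G v)
    (fun v => (GraphProduct.of E G v).comp (Pi.evalMonoidHom G v))
    (fun v w hvw g g' => GraphProduct.commute E G hvw _ _)
  have h1 : F'.comp F = MonoidHom.id _ := by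
    apply GraphProduct.hom_ext
    intro v x
    rw [MonoidHom.comp_apply, hF, MonoidHom.comp_apply, hF', MonoidHom.comp_apply,
      MonoidHom.id_apply, Pi.evalMonoidHom_apply, MonoidHom.mulSingle_apply, Pi.mulSingle_eq_same]
  refine ⟨F, Function.LeftInverse.injective (g := F') fun x => ?_⟩
  exact DFunLike.congr_fun h1 x

end Pool.Agent.H36.GX
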