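import Pool.Agent.H36.GX.Words
import Pool.Agent.H36.GX.GP
import Pool.Agent.H36.GX.TPow
import Pool.Agent.H66.NCL.PBasic

/-!
# Project GX: `P` for the group rings of the graph products with equal vertex groups
-/

set_option autoImplicit false

namespace Pool.Agent.H36.GX

open Pool.Agent.H66.NCL Pool.Agent.H36.OX

universe u v

/-- the coefficient map `ℤ → A` on matrices over monoid algebras -/
private noncomputable def coM (A : Type u) [Ring A] (Q : Type u) [Monoid Q] (J : Type u)
    [Fintype J] [DecidableEq J] : Matrix J J (MonoidAlgebra ℤ Q) →+* Matrix J J (MonoidAlgebra A Q) :=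
  (MonoidAlgebra.mapRingHom Q (Int.castRingHom A)).mapMatrix

private theorem coM_coeff (A : Type u) [Ring A] (Q : Type u) [Monoid Q] (J : Type u)
    [Fintype J] [DecidableEq J] (m : Matrix J J (MonoidAlgebra ℤ Q)) (a b : J) (q : Q) :
    (coM A Q J m a b).coeff q = (((m a b).coeff q : ℤ) : A) := by
  unfold coM
  rw [RingHom.mapMatrix_apply, Matrix.map_apply, MonoidAlgebra.coeff_mapRingHom]
  rfl

/-- the scalar matrices -/
private noncomputable def scM (A : Type u) [Ring A] (Q : Type u) [Monoid Q] (J : Type u)
    [Fintype J] [DecidableEq J] : A →+* Matrix J J (MonoidAlgebra A Q) :=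
  (Matrix.scalar J).comp MonoidAlgebra.singleOneRingHom

private theorem scM_mul (A : Type u) [Ring A] (Q : Type u) [Monoid Q] (J : Type u)
    [Fintype J] [DecidableEq J] (c : A) (m : Matrix J J (MonoidAlgebra A Q)) (a b : J) (q : Q) :
    ((scM A Q J c * m) a b).coeff q = c * (m a b).coeff q := by
  unfold scM
  rw [RingHom.comp_apply, Matrix.scalar_apply, Matrix.diagonal_mul]
  exact MonoidAlgebra.coeff_single_one_mul _ _ _

private theorem mul_scM (A : Type u) [Ring A] (Q : Type u) [Monoid Q] (J : Type u)
    [Fintype J] [DecidableEq J] (c : A) (m : Matrix J J (MonoidAlgebra A Q)) (a b : J) (q : Q) :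
    ((m * scM A Q J c) a b).coeff q = (m a b).coeff q * c := by
  unfold scM
  rw [RingHom.comp_apply, Matrix.scalar_apply, Matrix.mul_diagonal]
  exact MonoidAlgebra.coeff_mul_single_one _ _ _

private theorem sc_comm (A : Type u) [Ring A] (Q : Type u) [Monoid Q] (J : Type u)
    [Fintype J] [DecidableEq J] (c : A) (m : Matrix J J (MonoidAlgebra ℤ Q)) :
    Commute (scM A Q J c) (coM A Q J m) := by
  refine Matrix.ext fun a b => ?_
  apply MonoidAlgebra.coeff_injective
  refine Finsupp.ext fun q => ?_
  rw [scM_mul, mul_scM, coM_coeff]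
  exact ((((m a b).coeff q)).cast_commute c).symm

theorem P_gpR {A : Type u} [Ring A] {V : Type u} [Finite V] (E : SimpleGraph V) (X : Type u)
    [Group X] (Q : Type u) [Monoid Q] (h : ∀ k : ℕ, P.{u, u} (MonoidAlgebra A (Fin k → Q)))
    (I : Type u) [Fintype I] [DecidableEq I]
    (ρ : (GraphProduct E fun _ : V => X) →* Matrix I I (MonoidAlgebra ℤ Q))
    (hρ : ∀ L : List (V × X), (L.map Prod.fst).IsChain (nc E) →
      ∃ (a b : I) (u : Q), ∀ ω : List (V × X), (ρ (gev E X ω) a b).coeff u = lcf ω L) :
    P.{u, u} (MonoidAlgebra A (GraphProduct E fun _ : V => X)) := by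
  classical
  obtain ⟨k, ⟨e⟩⟩ := Finite.exists_equiv_fin (V × V)
  obtain ⟨J, hJ, hdJ, ρ', hρ'⟩ := exists_tPow ℤ Q (GraphProduct E fun _ : V => X) I ρ k
  have hsymm : ∀ s r : V, nc E s r → nc E r s := fun s r h0 =>
    ⟨h0.1.symm, fun h1 => h0.2 h1.symm⟩
  have hirr : ∀ s : V, ¬ nc E s s := fun s h0 => h0.1 rfl
  let ρA : (GraphProduct E fun _ : V => X) →* Matrix J J (MonoidAlgebra A (Fin k → Q)) :=
    ((coM A (Fin k → Q) J : _ →+* _) : _ →* _).comp ρ'
  let Ψ : MonoidAlgebra A (GraphProduct E fun _ : V => X) →+*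
      Matrix J J (MonoidAlgebra A (Fin k → Q)) :=
    MonoidAlgebra.liftNCRingHom (scM A (Fin k → Q) J) ρA
      fun c w => sc_comm A _ J c (ρ' w)
  choose red hgev hne1 hred hmin using exists_reduced E X
  have hinj : Function.Injective Ψ := by
    rw [injective_iff_map_eq_zero]
    intro f hf
    by_contra hne
    have hsupp : f.coeff.support.Nonempty := by
      rw [Finsupp.support_nonempty_iff]
      intro h0
      exact hne (MonoidAlgebra.coeff_eq_zero.mp h0)
    obtain ⟨w, hw, hmax⟩ := Finset.exists_max_image f.coeff.support (fun g => (red g).length) hsupp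
    have hL : ∀ p : V × V, ∃ L : List (V × X), (L.map Prod.fst).IsChain (nc E) ∧
        lcf (red w) L = 1 ∧ ((nc E p.1 p.2 ∨ p.1 = p.2) → L.Sublist (red w) ∧
          ∀ v, v = p.1 ∨ v = p.2 →
            (L.filter fun p => (open Classical in decide (p.1 = v))).length =
              ((red w).filter fun p => (open Classical in decide (p.1 = v))).length) := by
      intro p
      by_cases hp : nc E p.1 p.2 ∨ p.1 = p.2
      · obtain ⟨L, h1, h2, h3, h4⟩ := exists_lchain (nc E) hsymm hirr (red w) (hne1 w) (hred w)
          p.1 p.2 hp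
        exact ⟨L, h2, h4, fun _ => ⟨h1, h3⟩⟩
      · refine ⟨[], List.isChain_nil, ?_, fun hh => absurd hh hp⟩
        cases red w <;> simp [lcf]
    choose L hL1 hL2 hL3 using hL
    choose a b u hu using fun p => hρ (L p) (hL1 p)
    obtain ⟨a', b', hab⟩ := hρ' (fun i => a (e.symm i)) (fun i => b (e.symm i))
      (fun i => u (e.symm i))
    let φ : (GraphProduct E fun _ : V => X) → ℤ :=
      fun w' => (ρ' w' a' b').coeff (fun i => u (e.symm i))
    have hφ : ∀ w', φ w' = ∏ i, lcf (red w') (L (e.symm i)) := by
      intro w'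
      have := hab w'
      refine this.trans (Finset.prod_congr rfl fun i _ => ?_)
      have h3 := hu (e.symm i) (red w')
      rw [hgev] at h3
      exact h3
    have hzero : ∀ w' ∈ f.coeff.support, w' ≠ w → φ w' = 0 := by
      intro w' hw' hne'
      rw [hφ]
      by_contra hprod
      apply hne'
      have hall : ∀ p : V × V, lcf (red w') (L p) ≠ 0 := by
        intro p hp0
        apply hprod
        apply Finset.prod_eq_zero (Finset.mem_univ (e p))
        rw [e.symm_apply_apply, hp0]
      have hcomm : ∀ p q : V × X, p.1 ≠ q.1 → ¬ nc E p.1 q.1 →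
          GraphProduct.of E (fun _ : V => X) p.1 p.2 * GraphProduct.of E (fun _ : V => X) q.1 q.2 =
            GraphProduct.of E (fun _ : V => X) q.1 q.2 *
              GraphProduct.of E (fun _ : V => X) p.1 p.2 := by
        intro p q hpq hnc
        have hadj : E.Adj p.1 q.1 := by
          by_contra hc
          exact hnc ⟨hpq, hc⟩
        exact GraphProduct.commute E (fun _ : V => X) hadj p.2 q.2
      have := lprod_eq (nc E) hsymm
        (fun p : V × X => GraphProduct.of E (fun _ : V => X) p.1 p.2) hcomm (red w) (red w')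
        (hne1 w) (hmax w' hw')
        (fun s r hsr => ⟨L (s, r), (hL3 (s, r) hsr).1, hall (s, r), (hL3 (s, r) hsr).2⟩)
      calc w' = gev E X (red w') := (hgev w').symm
        _ = gev E X (red w) := this.symm
        _ = w := hgev w
    have hone : φ w = 1 := by
      rw [hφ]
      exact Finset.prod_eq_one fun i _ => hL2 (e.symm i)
    have hadd : ∀ g g' : Matrix J J (MonoidAlgebra A (Fin k → Q)),
        ((g + g') a' b').coeff (fun i => u (e.symm i)) =
          (g a' b').coeff (fun i => u (e.symm i)) + (g' a' b').coeff (fun i => u (e.symm i)) :=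
      fun g g' => by
        rw [Matrix.add_apply, MonoidAlgebra.coeff_add, Finsupp.add_apply]
    let χ : Matrix J J (MonoidAlgebra A (Fin k → Q)) →+ A :=
      { toFun := fun m => (m a' b').coeff (fun i => u (e.symm i))
        map_zero' := by simp
        map_add' := hadd }
    have hΨ1 : ∀ (w' : GraphProduct E fun _ : V => X) (c : A),
        χ (Ψ (MonoidAlgebra.single w' c)) = c * ((φ w' : ℤ) : A) := by
      intro w' c
      have h1 : Ψ (MonoidAlgebra.single w' c) = scM A _ J c * coM A _ J (ρ' w') :=
        MonoidAlgebra.liftNCRingHom_single _ _ _ _ _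
      rw [h1]
      have h2 := scM_mul A (Fin k → Q) J c (coM A _ J (ρ' w')) a' b'
        (fun i => u (e.symm i))
      rw [coM_coeff] at h2
      exact h2
    have hΨ : χ (Ψ f) = f.coeff w * ((φ w : ℤ) : A) := by
      have h1 : f = ∑ g ∈ f.coeff.support, MonoidAlgebra.single g (f.coeff g) :=
        (MonoidAlgebra.sum_coeff_single f).symm
      have h2 : χ (Ψ f) = ∑ g ∈ f.coeff.support, χ (Ψ (MonoidAlgebra.single g (f.coeff g))) := by
        conv_lhs => rw [h1]
        rw [map_sum, map_sum]
      rw [h2, Finset.sum_eq_single w]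
      · exact hΨ1 w _
      · intro w' hw' hne'
        rw [hΨ1, hzero w' hw' hne', Int.cast_zero, mul_zero]
      · intro hh
        exact absurd hw hh
    rw [hf, map_zero, hone, Int.cast_one, mul_one] at hΨ
    exact (Finsupp.mem_support_iff.mp hw) hΨ.symm
  exact P.of_injective Ψ hinj (P.matrix (h k) J)

end Pool.Agent.H36.GX
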