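import Pool.Agent.H36.GX.Base
import Pool.Agent.H36.OX.ExtG
import Pool.Agent.H36.OX.Wr

/-!
# Project GX: products of groups with a series
-/

set_option autoImplicit false

namespace Pool.Agent.H36.GX

open Pool.Agent.H66.NCL Pool.Agent.H36.OX

universe u

private theorem sol_equiv {N : Type u} [Group N] (hN : TFSolv N) :
    ∀ {M : Type u} [Group M] (_ : N ≃* M), TFSolv M := by
  induction hN with
  | triv N h =>
    intro M _ e
    refine TFSolv.triv M fun x => ?_
    apply e.symm.injective
    rw [map_one]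
    exact h _
  | step N₀ N i z h hz hN0 _ =>
    intro M _ e
    obtain ⟨σ, hσ⟩ := h
    refine TFSolv.step N₀ M (e.toMonoidHom.comp i) (e z) ⟨σ, ?_⟩ ?_ hN0
    · intro x
      show e z * e (i x) = e (i (σ x)) * e z
      rw [← map_mul, ← map_mul, hσ]
    · have : (fun p : N₀ × ℤ => (e.toMonoidHom.comp i) p.1 * e z ^ p.2) =
          e ∘ fun p : N₀ × ℤ => i p.1 * z ^ p.2 := by
        funext p
        show e (i p.1) * e z ^ p.2 = e (i p.1 * z ^ p.2)
        rw [map_mul, map_zpow]
      rw [this]
      exact e.bijective.comp hz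
  | union N J K hdir htop _ ih =>
    intro M _ e
    refine TFSolv.union M J (fun j => (K j).map e.toMonoidHom) ?_ ?_ ?_
    · intro a b
      obtain ⟨c, h1, h2⟩ := hdir a b
      exact ⟨c, Subgroup.map_mono h1, Subgroup.map_mono h2⟩
    · intro x
      obtain ⟨j, hj⟩ := htop (e.symm x)
      exact ⟨j, ⟨e.symm x, hj, e.apply_symm_apply x⟩⟩
    · intro j
      exact ih j ((K j).equivMapOfInjective e.toMonoidHom e.injective)

theorem TFSolv.prod {N M : Type u} [Group N] [Group M] (hN : TFSolv N) (hM : TFSolv M) :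
    TFSolv (N × M) := by
  induction hN with
  | triv N h =>
    refine sol_equiv hM
      { toFun := fun y => ((1 : N), y)
        invFun := Prod.snd
        left_inv := fun y => rfl
        right_inv := fun p => Prod.ext (h p.1).symm rfl
        map_mul' := fun a b => Prod.ext (mul_one 1).symm rfl }
  | step N₀ N i z h hz _ ih =>
    obtain ⟨σ, hσ⟩ := h
    refine TFSolv.step (N₀ × M) (N × M) (i.prodMap (MonoidHom.id M)) (z, 1)
      ⟨σ.prodCongr (MulEquiv.refl M), ?_⟩ ?_ ih
    · rintro ⟨x, b⟩
      refine Prod.ext (hσ x) ?_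
      show 1 * b = b * 1
      rw [one_mul, mul_one]
    · have hf : ∀ (x : N₀) (b : M) (k : ℤ),
          (i.prodMap (MonoidHom.id M)) (x, b) * ((z, 1) : N × M) ^ k = (i x * z ^ k, b) := by
        intro x b k
        refine Prod.ext rfl ?_
        show b * (1 : M) ^ k = b
        rw [one_zpow, mul_one]
      constructor
      · rintro ⟨⟨x, b⟩, k⟩ ⟨⟨x', b'⟩, k'⟩ he
        simp only [hf] at he
        obtain ⟨h1, h2⟩ := Prod.mk.inj he
        have h3 := hz.1 (a₁ := (x, k)) (a₂ := (x', k')) h1
        obtain ⟨h4, h5⟩ := Prod.mk.inj h3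
        subst h2 h4 h5
        rfl
      · rintro ⟨y, b⟩
        obtain ⟨⟨x, k⟩, hx⟩ := hz.2 y
        refine ⟨⟨⟨x, b⟩, k⟩, ?_⟩
        simp only [hf]
        exact Prod.ext hx rfl
  | union N J K hdir htop _ ih =>
    refine TFSolv.union (N × M) J (fun j => (K j).prod ⊤) ?_ ?_ ?_
    · intro a b
      obtain ⟨c, h1, h2⟩ := hdir a b
      exact ⟨c, Subgroup.prod_mono h1 le_rfl, Subgroup.prod_mono h2 le_rfl⟩
    · rintro ⟨x, b⟩
      obtain ⟨j, hj⟩ := htop x
      exact ⟨j, ⟨hj, trivial⟩⟩
    · intro j
      exact sol_equiv (ih j) (((MulEquiv.refl (K j)).prodCongr Subgroup.topEquiv.symm).trans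
        (Subgroup.prodEquiv (K j) ⊤).symm)

theorem TFSolv.pi {V : Type u} [Finite V] (G : V → Type u) [∀ v, Group (G v)]
    (h : ∀ v, TFSolv (G v)) : TFSolv (∀ v, G v) := by
  refine Finite.induction_empty_option (P := fun V : Type u => ∀ (G : V → Type u)
    [∀ v, Group (G v)], (∀ v, TFSolv (G v)) → TFSolv (∀ v, G v)) ?_ ?_ ?_ V G h
  · intro α β e ih G _ h
    have h1 := ih (fun a => G (e a)) fun a => h _
    let f : (∀ b, G b) →* (∀ a, G (e a)) :=
      { toFun := fun x a => x (e a)
        map_one' := rfl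
        map_mul' := fun _ _ => rfl }
    have hf : Function.Bijective f := by
      constructor
      · intro x y hxy
        funext b
        obtain ⟨a, rfl⟩ := e.surjective b
        exact congrFun hxy a
      · intro y
        exact ⟨Equiv.piCongrLeft G e y, funext fun a => Equiv.piCongrLeft_apply_apply G e y a⟩
    exact sol_equiv h1 (MulEquiv.ofBijective f hf).symm
  · intro G _ _
    exact TFSolv.triv _ fun x => funext fun v => v.elim
  · intro α _ ih G _ h
    have h1 := TFSolv.prod (h none) (ih (fun a => G (some a)) fun a => h _)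
    let e : (∀ o, G o) ≃* G none × ∀ a, G (some a) :=
      { Equiv.piOptionEquivProd with map_mul' := fun _ _ => rfl }
    exact sol_equiv h1 e.symm

theorem TFSolv.pow {N : Type u} [Group N] (hN : TFSolv N) (k : ℕ) : TFSolv (Fin k → N) :=
  sol_equiv (TFSolv.pi (fun _ : ULift.{u} (Fin k) => N) fun _ => hN)
    (MulEquiv.arrowCongr Equiv.ulift (MulEquiv.refl N))

theorem exists_finIndex_pi {V : Type u} [Finite V] (G : V → Type u) [∀ v, Group (G v)]
    (h : ∀ v, ∃ K : Subgroup (G v), K.FiniteIndex ∧ TFSolv K) :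
    ∃ K : Subgroup (∀ v, G v), K.FiniteIndex ∧ TFSolv K := by
  choose K hK hKs using h
  refine ⟨Subgroup.pi Set.univ K, ?_, ?_⟩
  · have h1 : ∀ v, ((K v).comap (Pi.evalMonoidHom G v)).FiniteIndex := by
      intro v
      constructor
      have h2 := Subgroup.index_comap_of_surjective (K v)
        (f := Pi.evalMonoidHom G v) (Function.surjective_eval v)
      rw [h2]
      exact (hK v).index_ne_zero
    have h3 : Subgroup.pi Set.univ K = ⨅ v, (K v).comap (Pi.evalMonoidHom G v) := by
      ext x
      rw [Subgroup.mem_pi, Subgroup.mem_iInf]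
      exact ⟨fun h v => h v (Set.mem_univ v), fun h v _ => h v⟩
    rw [h3]
    exact Subgroup.finiteIndex_iInf h1
  · refine sol_equiv (TFSolv.pi (fun v => K v) hKs)
      { toFun := fun y => ⟨fun v => (y v).1, fun v _ => (y v).2⟩
        invFun := fun x v => ⟨x.1 v, x.2 v (Set.mem_univ v)⟩
        left_inv := fun y => rfl
        right_inv := fun x => rfl
        map_mul' := fun a b => rfl }

end Pool.Agent.H36.GX
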