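import Pool.Agent.H36.GX.Sol

/-!
# Project GX: restricted wreath products with the integers (module Wre)
-/

set_option autoImplicit false

namespace Pool.Agent.H36.GX

open Pool.Agent.H36.OX

universe u

private theorem wre_of_equiv {N : Type u} [Group N] (hN : OX.TFSolv N) :
    ∀ {M : Type u} [Group M] (_ : N ≃* M), OX.TFSolv M := by
  induction hN with
  | triv N h =>
    intro M _ e
    refine OX.TFSolv.triv M fun x => ?_
    apply e.symm.injective
    rw [map_one]
    exact h _
  | step N₀ N i z h hz hN0 _ =>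
    intro M _ e
    obtain ⟨σ, hσ⟩ := h
    refine OX.TFSolv.step N₀ M (e.toMonoidHom.comp i) (e z) ⟨σ, ?_⟩ ?_ hN0
    · intro x
      show e z * e (i x) = e (i (σ x)) * e z
      rw [← map_mul, ← map_mul, hσ]
    · have : (fun p : N₀ × ℤ => (e.toMonoidHom.comp i) p.1 * e z ^ p.2) =
          e ∘ fun p : N₀ × ℤ => i p.1 * z ^ p.2 := by
        funext p
        show e (i p.1) * e z ^ p.2 = e (i p.1 * z ^ p.2)
        rw [map_mul, map_zpow]
      rw [this]
      exact e.bijective.comp hz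
  | union N J K hdir htop _ ih =>
    intro M _ e
    refine OX.TFSolv.union M J (fun j => (K j).map e.toMonoidHom) ?_ ?_ ?_
    · intro a b
      obtain ⟨c, h1, h2⟩ := hdir a b
      exact ⟨c, Subgroup.map_mono h1, Subgroup.map_mono h2⟩
    · intro x
      obtain ⟨j, hj⟩ := htop (e.symm x)
      exact ⟨j, ⟨e.symm x, hj, e.apply_symm_apply x⟩⟩
    · intro j
      exact ih j ((K j).equivMapOfInjective e.toMonoidHom e.injective)

/-- the functions of finite support -/
private def wB (M : Type u) [Group M] : Subgroup (ℤ → M) where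
  carrier := {f | ∃ k : ℕ, ∀ j : ℤ, (k : ℤ) < |j| → f j = 1}
  one_mem' := ⟨0, fun _ _ => rfl⟩
  mul_mem' := by
    rintro f g ⟨k, hk⟩ ⟨l, hl⟩
    refine ⟨max k l, fun j hj => ?_⟩
    rw [Nat.cast_max] at hj
    rw [Pi.mul_apply, hk j (lt_of_le_of_lt (le_max_left _ _) hj),
      hl j (lt_of_le_of_lt (le_max_right _ _) hj), mul_one]
  inv_mem' := by
    rintro f ⟨k, hk⟩
    refine ⟨k, fun j hj => ?_⟩
    rw [Pi.inv_apply, hk j hj, inv_one]

/-- the functions with support in `[-k, k]` -/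
private def wK (M : Type u) [Group M] (k : ℕ) : Subgroup (wB M) where
  carrier := {f | ∀ j : ℤ, (k : ℤ) < |j| → f.1 j = 1}
  one_mem' := fun _ _ => rfl
  mul_mem' := by
    intro f g hf hg j hj
    show f.1 j * g.1 j = 1
    rw [hf j hj, hg j hj, mul_one]
  inv_mem' := by
    intro f hf j hj
    show (f.1 j)⁻¹ = 1
    rw [hf j hj, inv_one]

private theorem wre_idx {k : ℕ} {j : ℤ} (h : |j| ≤ (k : ℤ)) : (j + k).toNat < 2 * k + 1 := by
  rw [abs_le] at h
  omega

private def wG (M : Type u) [Group M] (k : ℕ) (g : Fin (2 * k + 1) → M) (j : ℤ) : M :=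
  if h : |j| ≤ (k : ℤ) then g ⟨(j + k).toNat, wre_idx h⟩ else 1

private theorem wG_pos (M : Type u) [Group M] (k : ℕ) (g : Fin (2 * k + 1) → M) {j : ℤ}
    (h : |j| ≤ (k : ℤ)) : wG M k g j = g ⟨(j + k).toNat, wre_idx h⟩ := dif_pos h

private theorem wG_neg (M : Type u) [Group M] (k : ℕ) (g : Fin (2 * k + 1) → M) {j : ℤ}
    (h : (k : ℤ) < |j|) : wG M k g j = 1 := dif_neg (not_le.2 h)

private def wE (M : Type u) [Group M] (k : ℕ) : (Fin (2 * k + 1) → M) ≃* wK M k where
  toFun g := ⟨⟨wG M k g, k, fun _ hj => wG_neg M k g hj⟩, fun _ hj => wG_neg M k g hj⟩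
  invFun f t := f.1.1 ((t : ℕ) - (k : ℤ))
  left_inv g := by
    funext t
    have ht : |((t : ℕ) : ℤ) - k| ≤ (k : ℤ) := by
      have := t.isLt
      rw [abs_le]
      omega
    show wG M k g (((t : ℕ) : ℤ) - k) = g t
    rw [wG_pos M k g ht]
    congr 1
    apply Fin.ext
    show (((t : ℕ) : ℤ) - k + k).toNat = t
    rw [sub_add_cancel, Int.toNat_natCast]
  right_inv f := by
    apply Subtype.ext
    apply Subtype.ext
    funext j
    show wG M k (fun t => f.1.1 ((t : ℕ) - (k : ℤ))) j = f.1.1 j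
    rcases le_or_gt |j| (k : ℤ) with h | h
    · rw [wG_pos M k _ h]
      have e : (((j + k).toNat : ℕ) : ℤ) - k = j := by
        rw [abs_le] at h
        omega
      show f.1.1 ((((j + k).toNat : ℕ) : ℤ) - k) = f.1.1 j
      rw [e]
    · rw [wG_neg M k _ h, f.2 j h]
  map_mul' g g' := by
    apply Subtype.ext
    apply Subtype.ext
    funext j
    show wG M k (g * g') j = wG M k g j * wG M k g' j
    rcases le_or_gt |j| (k : ℤ) with h | h
    · rw [wG_pos M k _ h, wG_pos M k _ h, wG_pos M k _ h, Pi.mul_apply]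
    · rw [wG_neg M k _ h, wG_neg M k _ h, wG_neg M k _ h, mul_one]

private theorem wre_solv_base {M : Type u} [Group M] (hM : OX.TFSolv M) : OX.TFSolv (wB M) := by
  refine OX.TFSolv.union (wB M) (ULift.{u} ℕ) (fun k => wK M k.down) ?_ ?_ ?_
  · intro a b
    refine ⟨⟨max a.down b.down⟩, fun f hf j hj => ?_, fun f hf j hj => ?_⟩
    · refine hf j (lt_of_le_of_lt ?_ hj)
      rw [Nat.cast_max]
      exact le_max_left _ _
    · refine hf j (lt_of_le_of_lt ?_ hj)
      rw [Nat.cast_max]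
      exact le_max_right _ _
  · rintro ⟨f, k, hk⟩
    exact ⟨⟨k⟩, hk⟩
  · intro k
    exact wre_of_equiv (TFSolv.pow hM (2 * k.down + 1)) (wE M k.down)

/-- the restricted wreath product -/
private structure wQ (M : Type u) [Group M] where
  /-- base -/
  f : ℤ → M
  /-- finite support -/
  s : ∃ k : ℕ, ∀ j : ℤ, (k : ℤ) < |j| → f j = 1
  /-- exponent of the shift -/
  n : ℤ

private theorem wQ.ext' {M : Type u} [Group M] {a b : wQ M} (h1 : ∀ j, a.f j = b.f j)
    (h2 : a.n = b.n) : a = b := by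
  obtain ⟨f, s, n⟩ := a
  obtain ⟨f', s', n'⟩ := b
  obtain rfl : f = f' := funext h1
  obtain rfl : n = n' := h2
  rfl

private theorem wre_shift {M : Type u} [Group M] {f : ℤ → M}
    (h : ∃ k : ℕ, ∀ j : ℤ, (k : ℤ) < |j| → f j = 1) (m : ℤ) :
    ∃ k : ℕ, ∀ j : ℤ, (k : ℤ) < |j| → f (j - m) = 1 := by
  obtain ⟨k, hk⟩ := h
  refine ⟨k + m.natAbs, fun j hj => hk _ ?_⟩
  have h1 : |j| ≤ |j - m| + |m| := by
    calc |j| = |j - m + m| := by rw [sub_add_cancel]
      _ ≤ _ := abs_add_le _ _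
  rw [Nat.cast_add, Int.natCast_natAbs] at hj
  linarith

private theorem wre_mul {M : Type u} [Group M] {f g : ℤ → M}
    (hf : ∃ k : ℕ, ∀ j : ℤ, (k : ℤ) < |j| → f j = 1)
    (hg : ∃ k : ℕ, ∀ j : ℤ, (k : ℤ) < |j| → g j = 1) :
    ∃ k : ℕ, ∀ j : ℤ, (k : ℤ) < |j| → f j * g j = 1 :=
  (wB M).mul_mem (x := f) (y := g) hf hg

private instance (M : Type u) [Group M] : Mul (wQ M) :=
  ⟨fun a b => ⟨fun j => a.f j * b.f (j - a.n), wre_mul a.s (wre_shift b.s a.n), a.n + b.n⟩⟩
private instance (M : Type u) [Group M] : One (wQ M) := ⟨⟨fun _ => 1, ⟨0, fun _ _ => rfl⟩, 0⟩⟩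
private instance (M : Type u) [Group M] : Inv (wQ M) :=
  ⟨fun a => ⟨fun j => (a.f (j - -a.n))⁻¹, by
    obtain ⟨k, hk⟩ := wre_shift a.s (-a.n)
    exact ⟨k, fun j hj => by rw [hk j hj, inv_one]⟩, -a.n⟩⟩

private theorem wQ.mul_f {M : Type u} [Group M] (a b : wQ M) (j : ℤ) :
    (a * b).f j = a.f j * b.f (j - a.n) := rfl
private theorem wQ.mul_n {M : Type u} [Group M] (a b : wQ M) : (a * b).n = a.n + b.n := rfl
private theorem wQ.one_f {M : Type u} [Group M] (j : ℤ) : (1 : wQ M).f j = 1 := rfl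
private theorem wQ.one_n {M : Type u} [Group M] : (1 : wQ M).n = 0 := rfl
private theorem wQ.inv_f {M : Type u} [Group M] (a : wQ M) (j : ℤ) :
    (a⁻¹).f j = (a.f (j - -a.n))⁻¹ := rfl
private theorem wQ.inv_n {M : Type u} [Group M] (a : wQ M) : (a⁻¹).n = -a.n := rfl

private instance (M : Type u) [Group M] : Group (wQ M) :=
  Group.ofLeftAxioms
    (by
      intro a b c
      apply wQ.ext'
      · intro j
        simp only [wQ.mul_f, wQ.mul_n]
        rw [mul_assoc, sub_sub]
      · simp only [wQ.mul_n]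
        ring)
    (by
      intro a
      apply wQ.ext'
      · intro j
        simp only [wQ.mul_f, wQ.one_f, wQ.one_n, one_mul, sub_zero]
      · simp only [wQ.mul_n, wQ.one_n, zero_add])
    (by
      intro a
      apply wQ.ext'
      · intro j
        simp only [wQ.mul_f, wQ.inv_f, wQ.inv_n, wQ.one_f, inv_mul_cancel]
      · simp only [wQ.mul_n, wQ.inv_n, wQ.one_n, neg_add_cancel])

private def wQ.base (M : Type u) [Group M] : wB M →* wQ M where
  toFun f := ⟨f.1, f.2, 0⟩
  map_one' := rfl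
  map_mul' a b := by
    apply wQ.ext'
    · intro j
      simp only [wQ.mul_f, sub_zero]
      rfl
    · rfl

private def wQ.z (M : Type u) [Group M] (k : ℤ) : wQ M := ⟨fun _ => 1, ⟨0, fun _ _ => rfl⟩, k⟩

private def wQ.zh (M : Type u) [Group M] : Multiplicative ℤ →* wQ M where
  toFun m := wQ.z M m.toAdd
  map_one' := rfl
  map_mul' a b := by
    apply wQ.ext'
    · intro j
      rw [wQ.mul_f]
      show (1 : M) = 1 * 1
      rw [mul_one]
    · rfl

private theorem wQ.zpow (M : Type u) [Group M] (k : ℤ) : wQ.z M 1 ^ k = wQ.z M k := by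
  have h : wQ.z M 1 = wQ.zh M (Multiplicative.ofAdd 1) := rfl
  rw [h, ← map_zpow, ← ofAdd_zsmul]
  show wQ.z M (k • 1) = _
  rw [smul_eq_mul, mul_one]

private def wre_shiftE (M : Type u) [Group M] : wB M ≃* wB M where
  toFun f := ⟨fun j => f.1 (j - 1), wre_shift f.2 1⟩
  invFun f := ⟨fun j => f.1 (j - -1), wre_shift f.2 (-1)⟩
  left_inv f := by
    apply Subtype.ext
    funext j
    show f.1 (j - -1 - 1) = f.1 j
    rw [show j - -1 - 1 = j by ring]
  right_inv f := by
    apply Subtype.ext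
    funext j
    show f.1 (j - 1 - -1) = f.1 j
    rw [show j - 1 - -1 = j by ring]
  map_mul' _ _ := rfl

private theorem wre_solv {M : Type u} [Group M] (hM : OX.TFSolv M) : OX.TFSolv (wQ M) := by
  refine OX.TFSolv.step (wB M) (wQ M) (wQ.base M) (wQ.z M 1) ⟨wre_shiftE M, ?_⟩ ?_
    (wre_solv_base hM)
  · intro f
    apply wQ.ext'
    · intro j
      rw [wQ.mul_f, wQ.mul_f]
      show 1 * f.1 (j - 1) = f.1 (j - 1) * 1
      rw [one_mul, mul_one]
    · rw [wQ.mul_n, wQ.mul_n]
      exact add_comm _ _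
  · have hf : ∀ (f : wB M) (k : ℤ), wQ.base M f * wQ.z M 1 ^ k = ⟨f.1, f.2, k⟩ := by
      intro f k
      rw [wQ.zpow]
      apply wQ.ext'
      · intro j
        rw [wQ.mul_f]
        show f.1 j * 1 = f.1 j
        rw [mul_one]
      · rw [wQ.mul_n]
        show 0 + k = k
        rw [zero_add]
    constructor
    · rintro ⟨f, k⟩ ⟨f', k'⟩ he
      simp only [hf] at he
      have h1 : f.1 = f'.1 := congrArg wQ.f he
      have h2 : k = k' := congrArg wQ.n he
      exact Prod.ext (Subtype.ext h1) h2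
    · rintro ⟨f, s, k⟩
      exact ⟨⟨⟨f, s⟩, k⟩, hf _ _⟩

/-- the element with value `a` at `0` -/
private def wre_at {M : Type u} [Group M] (a : M) (m : ℤ) : wQ M :=
  ⟨fun j => if j = 0 then a else 1, ⟨0, fun j hj => if_neg fun h => by
    rw [h, abs_zero] at hj
    exact lt_irrefl _ hj⟩, m⟩

private theorem wre_at_zero {M : Type u} [Group M] (a : M) (m : ℤ) : (wre_at a m).f 0 = a := by
  show (if (0 : ℤ) = 0 then a else 1) = a
  exact if_pos rfl

private theorem wre_at_ne {M : Type u} [Group M] (a : M) (m : ℤ) {j : ℤ} (h : j ≠ 0) :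
    (wre_at a m).f j = 1 := if_neg h

private theorem wre_at_mul {M : Type u} [Group M] (a b : M) (m : ℤ) :
    wre_at a 0 * wre_at b m = wre_at (a * b) m := by
  apply wQ.ext'
  · intro j
    rw [wQ.mul_f]
    show _ * (wre_at b m).f (j - 0) = _
    rw [sub_zero]
    by_cases h : j = 0
    · rw [h, wre_at_zero, wre_at_zero, wre_at_zero]
    · rw [wre_at_ne _ _ h, wre_at_ne _ _ h, wre_at_ne _ _ h, mul_one]
  · rw [wQ.mul_n]
    exact zero_add _

theorem exists_wre {N : Type u} [Group N] (hN : TFSolv N) (T : Type u) :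
    ∃ (Q : Type u) (_ : Group Q) (_ : TFSolv Q) (i : N →* Q) (x : T → Q) (Pos : Q → Prop),
      IsPos i x Pos := by
  classical
  have hB : OX.TFSolv (Multiplicative (T →₀ ℤ)) := by
    refine OX.TFSolv.comm _ (fun x y => mul_comm x y) ?_
    intro x n hn hx
    apply Multiplicative.toAdd.injective
    have h1 : n • Multiplicative.toAdd x = 0 := by
      have := congrArg Multiplicative.toAdd hx
      rwa [toAdd_pow] at this
    rw [toAdd_one]
    ext t
    have h2 := DFunLike.congr_fun h1 t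
    rw [Finsupp.smul_apply, Finsupp.zero_apply, nsmul_eq_mul] at h2
    rw [Finsupp.zero_apply]
    rcases mul_eq_zero.1 h2 with h3 | h3
    · exact absurd (by exact_mod_cast h3) hn
    · exact h3
  have hM : OX.TFSolv (N × Multiplicative (T →₀ ℤ)) := TFSolv.prod hN hB
  refine ⟨wQ (N × Multiplicative (T →₀ ℤ)), inferInstance, wre_solv hM,
    { toFun := fun n => wre_at ((n, 1) : N × Multiplicative (T →₀ ℤ)) 0
      map_one' := ?_
      map_mul' := ?_ },
    fun t => wre_at ((1, Multiplicative.ofAdd (Finsupp.single t 1)) :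
      N × Multiplicative (T →₀ ℤ)) 1,
    fun q => ∀ j < 0, q.f j = 1, ?_⟩
  · apply wQ.ext'
    · intro j
      by_cases h : j = 0
      · rw [h, wre_at_zero]
        rfl
      · rw [wre_at_ne _ _ h]
        rfl
    · rfl
  · intro n n'
    rw [wre_at_mul, Prod.mk_mul_mk, mul_one]
  · have key : ∀ (n : N) (t : T), wre_at ((n, 1) : N × Multiplicative (T →₀ ℤ)) 0 *
        wre_at ((1, Multiplicative.ofAdd (Finsupp.single t 1)) :
          N × Multiplicative (T →₀ ℤ)) 1 =
        wre_at ((n, Multiplicative.ofAdd (Finsupp.single t 1)) :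
          N × Multiplicative (T →₀ ℤ)) 1 := by
      intro n t
      rw [wre_at_mul]
      congr 1
      exact Prod.ext (mul_one _) (one_mul _)
    refine ⟨fun j _ => rfl, ?_, ?_⟩
    · intro n t q hq j hj
      show ((wre_at ((n, 1) : N × Multiplicative (T →₀ ℤ)) 0 *
        wre_at ((1, Multiplicative.ofAdd (Finsupp.single t 1)) :
          N × Multiplicative (T →₀ ℤ)) 1) * q).f j = 1
      rw [key, wQ.mul_f, wre_at_ne _ _ hj.ne]
      show 1 * q.f (j - 1) = 1
      rw [hq (j - 1) (by omega), mul_one]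
    · intro n t q n' t' q' hq hq' he
      have he' : (wre_at ((n, 1) : N × Multiplicative (T →₀ ℤ)) 0 *
        wre_at ((1, Multiplicative.ofAdd (Finsupp.single t 1)) :
          N × Multiplicative (T →₀ ℤ)) 1) * q =
        (wre_at ((n', 1) : N × Multiplicative (T →₀ ℤ)) 0 *
        wre_at ((1, Multiplicative.ofAdd (Finsupp.single t' 1)) :
          N × Multiplicative (T →₀ ℤ)) 1) * q' := he
      rw [key, key] at he'
      have h0 := congrArg (fun a => wQ.f a 0) he'
      simp only [wQ.mul_f, wre_at_zero] at h0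
      have h1 : q.f (0 - 1) = 1 := hq _ (by norm_num)
      have h2 : q'.f (0 - 1) = 1 := hq' _ (by norm_num)
      have h3 : ((n, Multiplicative.ofAdd (Finsupp.single t 1)) : N × Multiplicative (T →₀ ℤ)) *
          q.f (0 - 1) = (n', Multiplicative.ofAdd (Finsupp.single t' 1)) * q'.f (0 - 1) := h0
      rw [h1, h2, mul_one, mul_one] at h3
      obtain ⟨h4, h5⟩ := Prod.mk.inj h3
      have h6 : t = t' := Finsupp.single_left_injective (one_ne_zero : (1 : ℤ) ≠ 0)
        (Multiplicative.ofAdd.injective h5)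
      subst h4 h6
      exact ⟨rfl, rfl, mul_left_cancel he'⟩

end Pool.Agent.H36.GX
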