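import Pool.Agent.H36.GX.Rho
import Pool.Agent.H36.GX.Sol
import Pool.Agent.H36.GX.Wre
import Pool.Agent.H36.GX.Inj
import Pool.Agent.H36.OX.Main

/-!
# Project GX: group rings of graph products, main theorem
-/

set_option autoImplicit false

namespace Pool.Agent.H36.GX

open Pool.Agent.H66.NCL Pool.Agent.H36.OX

universe u

theorem P_tower3 {A : Type u} [Ring A] (hA : OreTower A)
    (S Γ : Type u) [Monoid S] [Group Γ] (ι : S →* Γ) (hι : Function.Injective ι)
    (H : Subgroup Γ) [H.FiniteIndex] (V : Type u) [Finite V] (E : SimpleGraph V)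
    (G : V → Type u) [∀ v, Group (G v)] (hG : ∀ v, ∃ K : Subgroup (G v), K.FiniteIndex ∧ TFSolv K)
    (φ : H →* GraphProduct E G) (hφ : Function.Injective φ) : P.{u, u} (MonoidAlgebra A S) := by
  refine P_submonoidR ι hι (P_finIndexR H (P_submonoidR φ hφ ?_))
  obtain ⟨f, hf⟩ := GraphProduct.exists_const E G
  refine P_submonoidR f hf ?_
  obtain ⟨K, hK, hKs⟩ := exists_finIndex_pi G hG
  obtain ⟨Q, _, hQ, i, x, Pos, hpos⟩ := exists_wre hKs (V × Option (V × ((∀ v, G v) ⧸ K)))
  obtain ⟨I, _, _, ρ, hρ⟩ := exists_rho E (∀ v, G v) K Q i x Pos hpos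
  exact P_gpR E (∀ v, G v) Q (fun k => (hA.solv (TFSolv.pow hQ k)).P) I ρ hρ

/-- **Matrix groups over monoid algebras of submonoids of groups which embed virtually in graph products.** -/
theorem P_final3 {A : Type u} [Ring A] (hA : (∀ x y : A, x * y = y * x) ∨ OreTower A)
    (S Γ : Type u) [Monoid S] [Group Γ] (ι : S →* Γ) (hι : Function.Injective ι)
    (H : Subgroup Γ) [H.FiniteIndex] (V : Type u) [Finite V] (E : SimpleGraph V)
    (G : V → Type u) [∀ v, Group (G v)] (hG : ∀ v, ∃ K : Subgroup (G v), K.FiniteIndex ∧ SolvTF K)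
    (φ : H →* GraphProduct E G) (hφ : Function.Injective φ) : P.{u, u} (MonoidAlgebra A S) := by
  have hG' : ∀ v, ∃ K : Subgroup (G v), K.FiniteIndex ∧ TFSolv K := fun v => by
    obtain ⟨K, h1, h2⟩ := hG v
    exact ⟨K, h1, h2.tfSolv⟩
  rcases hA with hA | hA
  · let inst : CommRing A := { (inferInstance : Ring A) with mul_comm := hA }
    exact @P_commRing S _ (fun K _ => P_tower3 (OreTower.comm K mul_comm) S Γ ι hι H V E G hG' φ hφ)
      A inst
  · exact P_tower3 hA S Γ ι hι H V E G hG' φ hφ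

end Pool.Agent.H36.GX
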