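import Pool.Agent.H36.GX.ClsDefs
import Pool.Agent.H36.GX.Base

/-!
# Project GX: auxiliary definitions for the class of groups (not used in the statement)
-/

set_option autoImplicit false

namespace Pool.Agent.H36.GX

open Pool.Agent.H66.NCL Pool.Agent.H36.OX

universe u

/-- iterated graph products of groups in the class `C` -/
inductive It (C : (G : Type u) → [Group G] → Prop) : (G : Type u) → [Group G] → Prop
  | base (G : Type u) [Group G] (h : C G) : It C G
  | prod (V : Type u) [Finite V] (E : SimpleGraph V) (G : V → Type u) [∀ v, Group (G v)]
      (h : ∀ v, It C (G v)) : It C (GraphProduct E G)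

/-- the group rings of all iterated graph products of groups in the class `C` have the property `P` -/
def Good (A : Type u) [Ring A] (C : (G : Type u) → [Group G] → Prop) : Prop :=
  ∀ (G : Type u) [Group G], It C G → P.{u, u} (MonoidAlgebra A G)

/-- a subgroup of finite index embeds in an iterated graph product -/
def Vi (C : (G : Type u) → [Group G] → Prop) (G : Type u) [Group G] : Prop :=
  ∃ H : Subgroup G, H.FiniteIndex ∧ ∃ (N : Type u) (_ : Group N) (f : H →* N),
    It C N ∧ Function.Injective f

end Pool.Agent.H36.GX
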