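import Pool.Agent.H36.GX.NF
import Pool.Agent.H36.GX.GP
import Pool.Agent.H36.GX.ClsBase
import Pool.Agent.H66.NCL.PBasic

/-!
# Project GX: local approximation of the class of groups

A finite subset of an iterated graph product of groups in `C'` lies in the image of an iterated graph
product of groups in `C`, if finite subsets of the groups in `C'` lie in images of groups in `C`.
-/

set_option autoImplicit false

namespace Pool.Agent.H36.GX

open Pool.Agent.H66.NCL Pool.Agent.H36.OX

universe u v w

/-- the quotient map -/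
private def unMk {V : Type u} (E : SimpleGraph V) (G : V → Type u) [∀ v, Group (G v)] :
    Monoid.CoprodI G →* GraphProduct E G :=
  QuotientGroup.mk' (Subgroup.normalClosure
    {x : Monoid.CoprodI G | ∃ (v w : V) (g : G v) (h : G w), E.Adj v w ∧
      x = Monoid.CoprodI.of g * Monoid.CoprodI.of h * (Monoid.CoprodI.of g)⁻¹ *
        (Monoid.CoprodI.of h)⁻¹})

private theorem unMk_surj {V : Type u} (E : SimpleGraph V) (G : V → Type u)
    [∀ v, Group (G v)] : Function.Surjective (unMk E G) :=
  QuotientGroup.mk'_surjective _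

private theorem unMk_of {V : Type u} (E : SimpleGraph V) (G : V → Type u)
    [∀ v, Group (G v)] (v : V) (g : G v) :
    unMk E G (Monoid.CoprodI.of g) = GraphProduct.of E G v g := rfl

/-- every element is a product of elements of the vertex groups -/
private theorem un_word {V : Type u} (E : SimpleGraph V) (G : V → Type u) [∀ v, Group (G v)]
    (x : GraphProduct E G) :
    ∃ ω : List (Σ v, G v), (ω.map fun p => GraphProduct.of E G p.1 p.2).prod = x := by
  obtain ⟨y, rfl⟩ := unMk_surj E G x
  induction y using Monoid.CoprodI.induction_on with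
  | one => exact ⟨[], (map_one _).symm⟩
  | of v g =>
    refine ⟨[⟨v, g⟩], ?_⟩
    rw [List.map_cons, List.map_nil, List.prod_cons, List.prod_nil, mul_one, unMk_of]
  | mul y z hy hz =>
    obtain ⟨ω, h1⟩ := hy
    obtain ⟨ω', h2⟩ := hz
    refine ⟨ω ++ ω', ?_⟩
    rw [List.map_append, List.prod_append, h1, h2, ← map_mul]

private theorem un_it {C C' : (G : Type u) → [Group G] → Prop}
    (h : ∀ (U : Type u) [Group U], C' U → ∀ F : Set U, F.Finite →
      ∃ (U₀ : Type u) (_ : Group U₀) (f : U₀ →* U), Function.Injective f ∧ F ⊆ Set.range f ∧ C U₀)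
    {W : Type u} [Group W] (hW : It C' W) : ∀ F : Set W, F.Finite →
      ∃ (W₀ : Type u) (_ : Group W₀) (f : W₀ →* W), Function.Injective f ∧ F ⊆ Set.range f ∧
        It C W₀ := by
  induction hW with
  | base G hG =>
    intro F hF
    obtain ⟨U₀, i, f, h1, h2, h3⟩ := h G hG F hF
    exact ⟨U₀, i, f, h1, h2, It.base U₀ h3⟩
  | prod V E G hG ih =>
    intro F hF
    choose ω hω using un_word E G
    have h1 : ∀ v, ({g : G v | ∃ x ∈ F, (⟨v, g⟩ : Σ v, G v) ∈ ω x}).Finite := by
      intro v
      have h2 : (⋃ x ∈ F, {p : Σ v, G v | p ∈ ω x}).Finite :=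
        hF.biUnion fun x _ => List.finite_toSet (ω x)
      refine Set.Finite.subset (Set.Finite.preimage (f := fun g : G v => (⟨v, g⟩ : Σ v, G v))
        (fun a _ b _ hab => eq_of_heq (Sigma.mk.inj hab).2) h2) ?_
      rintro g ⟨x, hx, hg⟩
      exact Set.mem_biUnion hx hg
    choose W₀ i f hf hF₀ hI using fun v => ih v _ (h1 v)
    obtain ⟨Φ, hΦ, hΦi⟩ := GraphProduct.exists_map E W₀ G f hf
    refine ⟨GraphProduct E W₀, inferInstance, Φ, hΦi, ?_, It.prod V E W₀ hI⟩
    intro x hx
    have h2 : (((ω x).map fun p => GraphProduct.of E G p.1 p.2).prod) ∈ Φ.range := by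
      refine Subgroup.list_prod_mem _ ?_
      intro y hy
      obtain ⟨p, hp, rfl⟩ := List.mem_map.1 hy
      obtain ⟨g, hg⟩ := hF₀ p.1 ⟨x, hx, hp⟩
      exact ⟨GraphProduct.of E W₀ p.1 g, by rw [hΦ, hg]⟩
    rw [hω] at h2
    exact h2

theorem Good.local {A : Type u} [Ring A] {C C' : (G : Type u) → [Group G] → Prop}
    (h : ∀ (U : Type u) [Group U], C' U → ∀ F : Set U, F.Finite →
      ∃ (U₀ : Type u) (_ : Group U₀) (f : U₀ →* U), Function.Injective f ∧ F ⊆ Set.range f ∧ C U₀)
    (hG : Good A C) : Good A C' := by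
  classical
  intro W _ hW
  refine P.of_finset fun S => ?_
  obtain ⟨W₀, i, f, hf, hF, hI⟩ := un_it h hW
    (S.biUnion fun c => c.coeff.support : Finset W) (Finset.finite_toSet _)
  refine ⟨MonoidAlgebra A W₀, inferInstance, MonoidAlgebra.mapDomainRingHom A f, ?_, ?_,
    hG W₀ hI⟩
  · intro a b hab
    exact MonoidAlgebra.mapDomain_injective hf hab
  · intro c hc
    have h1 : ∀ x ∈ c.coeff.support, x ∈ Set.range f := fun x hx =>
      hF (Finset.mem_coe.2 (Finset.mem_biUnion.2 ⟨c, hc, hx⟩))
    have h2 : c = ∑ x ∈ c.coeff.support, MonoidAlgebra.single x (c.coeff x) := by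
      apply MonoidAlgebra.coeff_injective
      rw [MonoidAlgebra.coeff_sum]
      exact (Finsupp.sum_single c.coeff).symm
    have h3 : c ∈ (MonoidAlgebra.mapDomainRingHom A f).range := by
      rw [h2]
      refine Subring.sum_mem _ fun x hx => ?_
      obtain ⟨y, rfl⟩ := h1 x hx
      exact ⟨MonoidAlgebra.single y (c.coeff (f y)), MonoidAlgebra.mapDomain_single⟩
    exact h3

end Pool.Agent.H36.GX
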