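import Pool.Agent.H36.GX.GP
import Pool.Agent.H36.GX.ClsBase
import Pool.Agent.H36.OX.ExtG

/-!
# Project GX: positivity in wreath products and in iterated graph products (module Pos)
-/

set_option autoImplicit false

namespace Pool.Agent.H36.GX

open Pool.Agent.H66.NCL Pool.Agent.H36.OX

universe u

/-- the unrestricted wreath product with the integers -/
private structure posQ (M : Type u) [Group M] where
  /-- base -/
  f : ℤ → M
  /-- exponent of the shift -/
  n : ℤ

private theorem posQ.ext' {M : Type u} [Group M] {a b : posQ M} (h1 : ∀ j, a.f j = b.f j)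
    (h2 : a.n = b.n) : a = b := by
  obtain ⟨f, n⟩ := a
  obtain ⟨f', n'⟩ := b
  obtain rfl : f = f' := funext h1
  obtain rfl : n = n' := h2
  rfl

private instance (M : Type u) [Group M] : Mul (posQ M) :=
  ⟨fun a b => ⟨fun j => a.f j * b.f (j - a.n), a.n + b.n⟩⟩
private instance (M : Type u) [Group M] : One (posQ M) := ⟨⟨fun _ => 1, 0⟩⟩
private instance (M : Type u) [Group M] : Inv (posQ M) :=
  ⟨fun a => ⟨fun j => (a.f (j - -a.n))⁻¹, -a.n⟩⟩

private theorem posQ.mul_f {M : Type u} [Group M] (a b : posQ M) (j : ℤ) :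
    (a * b).f j = a.f j * b.f (j - a.n) := rfl
private theorem posQ.mul_n {M : Type u} [Group M] (a b : posQ M) : (a * b).n = a.n + b.n := rfl
private theorem posQ.one_f {M : Type u} [Group M] (j : ℤ) : (1 : posQ M).f j = 1 := rfl
private theorem posQ.one_n {M : Type u} [Group M] : (1 : posQ M).n = 0 := rfl
private theorem posQ.inv_f {M : Type u} [Group M] (a : posQ M) (j : ℤ) :
    (a⁻¹).f j = (a.f (j - -a.n))⁻¹ := rfl
private theorem posQ.inv_n {M : Type u} [Group M] (a : posQ M) : (a⁻¹).n = -a.n := rfl

private instance (M : Type u) [Group M] : Group (posQ M) :=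
  Group.ofLeftAxioms
    (by
      intro a b c
      apply posQ.ext'
      · intro j
        simp only [posQ.mul_f, posQ.mul_n]
        rw [mul_assoc, sub_sub]
      · simp only [posQ.mul_n]
        ring)
    (by
      intro a
      apply posQ.ext'
      · intro j
        simp only [posQ.mul_f, posQ.one_f, posQ.one_n, one_mul, sub_zero]
      · simp only [posQ.mul_n, posQ.one_n, zero_add])
    (by
      intro a
      apply posQ.ext'
      · intro j
        simp only [posQ.mul_f, posQ.inv_f, posQ.inv_n, posQ.one_f, inv_mul_cancel]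
      · simp only [posQ.mul_n, posQ.inv_n, posQ.one_n, neg_add_cancel])

/-- the element with value `a` at `0` -/
private def posAt {M : Type u} [Group M] (a : M) (m : ℤ) : posQ M :=
  ⟨fun j => if j = 0 then a else 1, m⟩

private theorem posAt_zero {M : Type u} [Group M] (a : M) (m : ℤ) : (posAt a m).f 0 = a := by
  show (if (0 : ℤ) = 0 then a else 1) = a
  exact if_pos rfl

private theorem posAt_ne {M : Type u} [Group M] (a : M) (m : ℤ) {j : ℤ} (h : j ≠ 0) :
    (posAt a m).f j = 1 := if_neg h

private theorem posAt_mul {M : Type u} [Group M] (a b : M) (m : ℤ) :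
    posAt a 0 * posAt b m = posAt (a * b) m := by
  apply posQ.ext'
  · intro j
    rw [posQ.mul_f]
    show _ * (posAt b m).f (j - 0) = _
    rw [sub_zero]
    by_cases h : j = 0
    · rw [h, posAt_zero, posAt_zero, posAt_zero]
    · rw [posAt_ne _ _ h, posAt_ne _ _ h, posAt_ne _ _ h, mul_one]
  · rw [posQ.mul_n]
    exact zero_add _

theorem exists_wrePos (N : Type u) [Group N] (T : Type u) :
    ∃ (Q : Type u) (_ : Group Q) (i : N →* Q) (x : T → Q) (Pos : Q → Prop), IsPos i x Pos := by
  classical
  refine ⟨posQ (N × Multiplicative (T →₀ ℤ)), inferInstance,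
    { toFun := fun n => posAt ((n, 1) : N × Multiplicative (T →₀ ℤ)) 0
      map_one' := ?_
      map_mul' := ?_ },
    fun t => posAt ((1, Multiplicative.ofAdd (Finsupp.single t 1)) :
      N × Multiplicative (T →₀ ℤ)) 1,
    fun q => ∀ j < 0, q.f j = 1, ?_⟩
  · apply posQ.ext'
    · intro j
      by_cases h : j = 0
      · rw [h, posAt_zero]
        rfl
      · rw [posAt_ne _ _ h]
        rfl
    · rfl
  · intro n n'
    rw [posAt_mul, Prod.mk_mul_mk, mul_one]
  · have key : ∀ (n : N) (t : T), posAt ((n, 1) : N × Multiplicative (T →₀ ℤ)) 0 *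
        posAt ((1, Multiplicative.ofAdd (Finsupp.single t 1)) :
          N × Multiplicative (T →₀ ℤ)) 1 =
        posAt ((n, Multiplicative.ofAdd (Finsupp.single t 1)) :
          N × Multiplicative (T →₀ ℤ)) 1 := by
      intro n t
      rw [posAt_mul]
      congr 1
      exact Prod.ext (mul_one _) (one_mul _)
    refine ⟨fun j _ => rfl, ?_, ?_⟩
    · intro n t q hq j hj
      show ((posAt ((n, 1) : N × Multiplicative (T →₀ ℤ)) 0 *
        posAt ((1, Multiplicative.ofAdd (Finsupp.single t 1)) :
          N × Multiplicative (T →₀ ℤ)) 1) * q).f j = 1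
      rw [key, posQ.mul_f, posAt_ne _ _ hj.ne]
      show 1 * q.f (j - 1) = 1
      rw [hq (j - 1) (by omega), mul_one]
    · intro n t q n' t' q' hq hq' he
      have he' : (posAt ((n, 1) : N × Multiplicative (T →₀ ℤ)) 0 *
        posAt ((1, Multiplicative.ofAdd (Finsupp.single t 1)) :
          N × Multiplicative (T →₀ ℤ)) 1) * q =
        (posAt ((n', 1) : N × Multiplicative (T →₀ ℤ)) 0 *
        posAt ((1, Multiplicative.ofAdd (Finsupp.single t' 1)) :
          N × Multiplicative (T →₀ ℤ)) 1) * q' := he
      rw [key, key] at he'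
      have h0 := congrArg (fun a => posQ.f a 0) he'
      simp only [posQ.mul_f, posAt_zero] at h0
      have h1 : q.f (0 - 1) = 1 := hq _ (by norm_num)
      have h2 : q'.f (0 - 1) = 1 := hq' _ (by norm_num)
      have h3 : ((n, Multiplicative.ofAdd (Finsupp.single t 1)) : N × Multiplicative (T →₀ ℤ)) *
          q.f (0 - 1) = (n', Multiplicative.ofAdd (Finsupp.single t' 1)) * q'.f (0 - 1) := h0
      rw [h1, h2, mul_one, mul_one] at h3
      obtain ⟨h4, h5⟩ := Prod.mk.inj h3
      have h6 : t = t' := Finsupp.single_left_injective (one_ne_zero : (1 : ℤ) ≠ 0)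
        (Multiplicative.ofAdd.injective h5)
      subst h4 h6
      exact ⟨rfl, rfl, mul_left_cancel he'⟩

/-- `N` and infinite cyclic groups -/
private def posG (N T : Type u) : Option T → Type u
  | none => N
  | some _ => Multiplicative (ULift.{u} ℤ)

private def posGI (N T : Type u) [Group N] : ∀ v, Group (posG N T v)
  | none => inferInstanceAs (Group N)
  | some _ => inferInstanceAs (Group (Multiplicative (ULift.{u} ℤ)))

attribute [local instance] posGI

private def posZ {Q : Type u} [Group Q] (y : Q) : Multiplicative (ULift.{u} ℤ) →* Q where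
  toFun m := y ^ (Multiplicative.toAdd m).down
  map_one' := zpow_zero y
  map_mul' a b := zpow_add y _ _

private def posHom {Q N T : Type u} [Group N] [Group Q] (i : N →* Q) (x : T → Q) :
    ∀ v, posG N T v →* Q
  | none => i
  | some t => posZ (x t)

private def posI (N T : Type u) [Group N] : N →* GraphProduct ⊥ (posG N T) :=
  GraphProduct.of ⊥ (posG N T) none

private def posX (N T : Type u) [Group N] (t : T) : GraphProduct ⊥ (posG N T) :=
  GraphProduct.of ⊥ (posG N T) (some t)
    (Multiplicative.ofAdd (ULift.up (1 : ℤ)) : Multiplicative (ULift.{u} ℤ))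

private theorem pos_cyc : TFSolv (Multiplicative (ULift.{u} ℤ)) := by
  refine OX.TFSolv.comm _ (fun x y => mul_comm x y) ?_
  intro x n hn hx
  apply Multiplicative.toAdd.injective
  have h1 : n • Multiplicative.toAdd x = 0 := by
    have := congrArg Multiplicative.toAdd hx
    rwa [toAdd_pow] at this
  rw [toAdd_one]
  apply ULift.down_injective
  have h2 : n • (Multiplicative.toAdd x).down = 0 := congrArg ULift.down h1
  rw [nsmul_eq_mul] at h2
  rcases mul_eq_zero.1 h2 with h3 | h3
  · exact absurd (by exact_mod_cast h3) hn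
  · exact h3

theorem It.exists_pos {C : (G : Type u) → [Group G] → Prop}
    (hC : ∀ (G : Type u) [Group G], TFSolv G → C G) {N : Type u} [Group N] (hN : It C N)
    (T : Type u) [Finite T] :
    ∃ (Q : Type u) (_ : Group Q) (i : N →* Q) (x : T → Q) (Pos : Q → Prop),
      It C Q ∧ IsPos i x Pos := by
  obtain ⟨R, _, i, x, Pos, hpos⟩ := exists_wrePos N T
  obtain ⟨π, hπ⟩ := GraphProduct.exists_lift (⊥ : SimpleGraph (Option T)) (posG N T)
    (posHom i x) (fun v w h => absurd h (by simp))
  have h0 : ∀ n : N, π (posI N T n) = i n := fun n => hπ none n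
  have h1 : ∀ t : T, π (posX N T t) = x t := fun t =>
    (hπ (some t) (Multiplicative.ofAdd (ULift.up (1 : ℤ)) : Multiplicative (ULift.{u} ℤ))).trans
      (zpow_one (x t))
  refine ⟨GraphProduct ⊥ (posG N T), inferInstance, posI N T, posX N T,
    fun q => Pos (π q), ?_, ?_, ?_, ?_⟩
  · apply It.prod
    intro v
    match v with
    | none => exact hN
    | some _ => exact It.base _ (hC _ pos_cyc)
  · rw [map_one]
    exact hpos.one
  · intro n t q hq
    rw [map_mul, map_mul, h0, h1]
    exact hpos.mul n t _ hq
  · intro n t q n' t' q' hq hq' he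
    have h2 := congrArg π he
    rw [map_mul, map_mul, h0, h1, map_mul, map_mul, h0, h1] at h2
    obtain ⟨h3, h4, _⟩ := hpos.inj n t (π q) n' t' (π q') hq hq' h2
    subst h3 h4
    exact ⟨rfl, rfl, mul_left_cancel he⟩

theorem exists_pi_gp {V : Type u} [Finite V] (G : V → Type u) [∀ v, Group (G v)] :
    ∃ f : (∀ v, G v) →* GraphProduct ⊤ G, Function.Injective f := by
  classical
  have := Fintype.ofFinite V
  obtain ⟨F, hF⟩ := GraphProduct.exists_lift (⊤ : SimpleGraph V) G
    (fun v => MonoidHom.mulSingle G v)
    (fun v w hvw g g' => Pi.mulSingle_commute (SimpleGraph.top_adj v w |>.1 hvw) g g')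
  have hc : Pairwise fun i j => ∀ (x : G i) (y : G j),
      Commute (GraphProduct.of (⊤ : SimpleGraph V) G i x) (GraphProduct.of ⊤ G j y) :=
    fun i j hij x y => GraphProduct.commute ⊤ G ((SimpleGraph.top_adj i j).2 hij) x y
  have h1 : F.comp (MonoidHom.noncommPiCoprod (fun v => GraphProduct.of (⊤ : SimpleGraph V) G v) hc) =
      MonoidHom.id _ := by
    apply MonoidHom.pi_ext
    intro i x
    rw [MonoidHom.comp_apply, MonoidHom.noncommPiCoprod_mulSingle, hF, MonoidHom.id_apply,
      MonoidHom.mulSingle_apply]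
  refine ⟨MonoidHom.noncommPiCoprod (fun v => GraphProduct.of (⊤ : SimpleGraph V) G v) hc,
    Function.LeftInverse.injective (g := F) fun x => ?_⟩
  exact DFunLike.congr_fun h1 x

end Pool.Agent.H36.GX
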