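import Pool.Agent.H36.GX.GP

/-!
# Project GX: the generic representation of a graph product
-/

set_option autoImplicit false
set_option linter.unusedSectionVars false

namespace Pool.Agent.H36.GX

open Pool.Agent.H66.NCL Pool.Agent.H36.OX

universe u v w

section

variable {V X : Type u} [Group X] (E : SimpleGraph V) (K : Subgroup X) {Q : Type u} [Group Q]
  (i : K →* Q) (x : V × Option (V × (X ⧸ K)) → Q)

/-- the cocycle -/
private noncomputable def rhK (g : X) (d : X ⧸ K) : K :=
  ⟨(g • d).out⁻¹ * (g * d.out), by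
    rw [← QuotientGroup.eq, QuotientGroup.out_eq']
    conv_lhs => rw [← QuotientGroup.out_eq' d]
    rfl⟩

private theorem rhK_coe (g : X) (d : X ⧸ K) :
    ((rhK K g d : K) : X) = (g • d).out⁻¹ * (g * d.out) := rfl

private theorem rhK_mul (g g' : X) (d : X ⧸ K) :
    rhK K (g * g') d = rhK K g (g' • d) * rhK K g' d := by
  apply Subtype.ext
  rw [Subgroup.coe_mul, rhK_coe, rhK_coe, rhK_coe, mul_smul]
  group

private theorem rhK_one (d : X ⧸ K) : rhK K 1 d = 1 := by
  apply Subtype.ext
  rw [rhK_coe, one_smul, one_mul, inv_mul_cancel]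
  rfl

/-- base coset -/
private def k0 : X ⧸ K := ((1 : X) : X ⧸ K)

private theorem rh_inj {g h : X} {d : X ⧸ K} (h1 : g • d = h • d) (h2 : rhK K g d = rhK K h d) :
    g = h := by
  have h3 := congrArg Subtype.val h2
  rw [rhK_coe, rhK_coe, h1] at h3
  exact mul_right_cancel (mul_left_cancel h3)

open Classical in
/-- the induced representation -/
private noncomputable def aM (g : X) : Matrix (X ⧸ K) (X ⧸ K) (MonoidAlgebra ℤ Q) :=
  Matrix.of fun d' d => if d' = g • d then MonoidAlgebra.single (i (rhK K g d)) 1 else 0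

variable [Fintype (X ⧸ K)] [DecidableEq (X ⧸ K)] [Fintype V] [DecidableEq V]

private theorem aM_apply (g : X) (d' d : X ⧸ K) :
    aM K i g d' d = if d' = g • d then MonoidAlgebra.single (i (rhK K g d)) 1 else 0 := by
  unfold aM
  rw [Matrix.of_apply]
  congr

private theorem aM_one : aM K i 1 = 1 := by
  ext1 d' d
  rw [aM_apply, one_smul, rhK_one, map_one, Matrix.one_apply]
  rfl

private theorem aM_mul (g g' : X) : aM K i (g * g') = aM K i g * aM K i g' := by
  ext1 d' d
  rw [Matrix.mul_apply, Finset.sum_eq_single (g' • d)]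
  · rw [aM_apply, aM_apply, aM_apply, if_pos rfl, mul_smul]
    by_cases h : d' = g • g' • d
    · rw [if_pos h, if_pos h, MonoidAlgebra.single_mul_single, one_mul, ← map_mul, ← rhK_mul]
    · rw [if_neg h, if_neg h, zero_mul]
  · intro e _ he
    rw [aM_apply K i g' e d, if_neg he, mul_zero]
  · intro h
    exact absurd (Finset.mem_univ _) h

/-- inclusion of the coordinates of the vertex `v` -/
private noncomputable def iM (Q : Type u) [Group Q] (v : V) :
    Matrix (Option (V × (X ⧸ K))) (X ⧸ K) (MonoidAlgebra ℤ Q) :=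
  Matrix.of fun r d => if r = some (v, d) then 1 else 0

open Classical in
/-- the generic coordinates -/
private noncomputable def xM (v : V) :
    Matrix (X ⧸ K) (Option (V × (X ⧸ K))) (MonoidAlgebra ℤ Q) :=
  Matrix.of fun d c =>
    if (∃ d', c = some (v, d')) then (if c = some (v, d) then 1 else 0)
    else if (∃ w d', E.Adj v w ∧ c = some (w, d')) then 0
    else if d = k0 K then MonoidAlgebra.single (x (v, c)) 1 else 0

private theorem xM_self (v : V) (d d' : X ⧸ K) :
    xM E K x v d (some (v, d')) = if d' = d then 1 else 0 := by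
  unfold xM
  rw [Matrix.of_apply, if_pos ⟨d', rfl⟩]
  by_cases h : d' = d
  · rw [if_pos (by rw [h]), if_pos h]
  · rw [if_neg (fun hh => h (congrArg Prod.snd (Option.some.inj hh))), if_neg h]

private theorem xM_adj (v w : V) (h : E.Adj v w) (d d' : X ⧸ K) :
    xM E K x v d (some (w, d')) = 0 := by
  unfold xM
  rw [Matrix.of_apply, if_neg, if_pos ⟨w, d', h, rfl⟩]
  rintro ⟨e, he⟩
  exact h.ne (congrArg Prod.fst (Option.some.inj he)).symm

private theorem xM_nc (v w : V) (h : nc E v w) (d d' : X ⧸ K) :
    xM E K x v d (some (w, d')) =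
      if d = k0 K then MonoidAlgebra.single (x (v, some (w, d'))) 1 else 0 := by
  unfold xM
  rw [Matrix.of_apply, if_neg, if_neg]
  · rintro ⟨w', e, h', he⟩
    obtain ⟨h1, -⟩ := Prod.mk.inj (Option.some.inj he)
    subst h1
    exact h.2 h'
  · rintro ⟨e, he⟩
    exact h.1 (congrArg Prod.fst (Option.some.inj he)).symm

private theorem xM_none (v : V) (d : X ⧸ K) :
    xM E K x v d none = if d = k0 K then MonoidAlgebra.single (x (v, none)) 1 else 0 := by
  unfold xM
  rw [Matrix.of_apply, if_neg, if_neg]
  · rintro ⟨w', e, h', he⟩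
    exact Option.some_ne_none _ he.symm
  · rintro ⟨e, he⟩
    exact Option.some_ne_none _ he.symm

private theorem xM_iM (v : V) : xM E K x v * iM K Q v = 1 := by
  ext1 d d'
  rw [Matrix.mul_apply, Finset.sum_eq_single (some (v, d'))]
  · rw [xM_self, Matrix.one_apply]
    unfold iM
    rw [Matrix.of_apply, if_pos rfl, mul_one]
    by_cases h : d' = d
    · rw [if_pos h, if_pos h.symm]
    · rw [if_neg h, if_neg (Ne.symm h)]
  · intro c _ hc
    unfold iM
    rw [Matrix.of_apply, if_neg hc, mul_zero]
  · intro h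
    exact absurd (Finset.mem_univ _) h

private theorem xM_iM_adj (v w : V) (h : E.Adj v w) : xM E K x v * iM K Q w = 0 := by
  ext1 d d'
  rw [Matrix.mul_apply, Finset.sum_eq_zero, Matrix.zero_apply]
  intro c _
  unfold iM
  rw [Matrix.of_apply]
  by_cases hc : c = some (w, d')
  · rw [hc, xM_adj E K x v w h, zero_mul]
  · rw [if_neg hc, mul_zero]

/-- the representation of the vertex group -/
private noncomputable def rM (v : V) :
    X →* Matrix (Option (V × (X ⧸ K))) (Option (V × (X ⧸ K))) (MonoidAlgebra ℤ Q) where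
  toFun g := 1 + iM K Q v * (aM K i g - 1) * xM E K x v
  map_one' := by
    rw [aM_one, sub_self, Matrix.mul_zero, Matrix.zero_mul, add_zero]
  map_mul' g g' := by
    rw [aM_mul]
    set a := aM K i g
    set a' := aM K i g'
    set ι := iM K Q v
    set ξ := xM E K x v
    have h : ι * (a - 1) * ξ * (ι * (a' - 1) * ξ) = ι * ((a - 1) * (a' - 1)) * ξ := by
      calc ι * (a - 1) * ξ * (ι * (a' - 1) * ξ)
          = ι * (a - 1) * (ξ * ι) * (a' - 1) * ξ := by simp only [Matrix.mul_assoc]
        _ = _ := by
          rw [xM_iM, Matrix.mul_one]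
          simp only [Matrix.mul_assoc]
    rw [add_mul, mul_add, mul_add, one_mul, mul_one, one_mul, h, add_assoc]
    congr 1
    rw [← add_assoc, ← Matrix.add_mul, ← Matrix.add_mul, ← Matrix.mul_add, ← Matrix.mul_add]
    congr 2
    noncomm_ring

private theorem rM_apply (v : V) (g : X) :
    rM E K i x v g = 1 + iM K Q v * (aM K i g - 1) * xM E K x v := rfl

private theorem rM_commute (v w : V) (h : E.Adj v w) (g g' : X) :
    Commute (rM E K i x v g) (rM E K i x w g') := by
  have h1 := xM_iM_adj E K x v w h
  have h2 := xM_iM_adj E K x w v h.symm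
  have h3 : ∀ a b : Matrix (X ⧸ K) (X ⧸ K) (MonoidAlgebra ℤ Q),
      iM K Q v * a * xM E K x v * (iM K Q w * b * xM E K x w) = 0 := by
    intro a b
    calc iM K Q v * a * xM E K x v * (iM K Q w * b * xM E K x w)
        = iM K Q v * a * (xM E K x v * iM K Q w) * b * xM E K x w := by
          simp only [Matrix.mul_assoc]
      _ = 0 := by rw [h1, Matrix.mul_zero, Matrix.zero_mul, Matrix.zero_mul]
  have h4 : ∀ a b : Matrix (X ⧸ K) (X ⧸ K) (MonoidAlgebra ℤ Q),
      iM K Q w * b * xM E K x w * (iM K Q v * a * xM E K x v) = 0 := by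
    intro a b
    calc iM K Q w * b * xM E K x w * (iM K Q v * a * xM E K x v)
        = iM K Q w * b * (xM E K x w * iM K Q v) * a * xM E K x v := by
          simp only [Matrix.mul_assoc]
      _ = 0 := by rw [h2, Matrix.mul_zero, Matrix.zero_mul, Matrix.zero_mul]
  show _ * _ = _ * _
  rw [rM_apply, rM_apply, add_mul, add_mul, mul_add, mul_add, mul_add, mul_add, h3, h4]
  simp only [one_mul, mul_one, add_zero]
  abel

/-! ### The column of `none` -/

open Classical in
private noncomputable def yy (v : V)
    (M : Matrix (Option (V × (X ⧸ K))) (Option (V × (X ⧸ K))) (MonoidAlgebra ℤ Q)) :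
    MonoidAlgebra ℤ Q :=
  ∑ c, if (c = none ∨ ∃ w d', nc E v w ∧ c = some (w, d')) then
    MonoidAlgebra.single (x (v, c)) 1 * M c none else 0

open Classical in
private theorem xM_mul (v : V) (d : X ⧸ K)
    (M : Matrix (Option (V × (X ⧸ K))) (Option (V × (X ⧸ K))) (MonoidAlgebra ℤ Q)) :
    (xM E K x v * M) d none = M (some (v, d)) none + if d = k0 K then yy E K x v M else 0 := by
  have key : ∀ c, xM E K x v d c * M c none = (if c = some (v, d) then M c none else 0) +
      if d = k0 K then (if (c = none ∨ ∃ w d', nc E v w ∧ c = some (w, d')) then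
        MonoidAlgebra.single (x (v, c)) 1 * M c none else 0) else 0 := by
    intro c
    rcases c with _ | ⟨w, d'⟩
    · have h0 : ¬ (none : Option (V × (X ⧸ K))) = some (v, d) :=
        fun h => Option.some_ne_none _ h.symm
      rw [if_neg h0, zero_add, if_pos (Or.inl rfl), xM_none]
      by_cases h : d = k0 K
      · rw [if_pos h, if_pos h]
      · rw [if_neg h, if_neg h, zero_mul]
    · by_cases hw : w = v
      · subst hw
        have h0 : ¬ ((some (w, d') : Option (V × (X ⧸ K))) = none ∨
            ∃ w' e, nc E w w' ∧ (some (w, d') : Option (V × (X ⧸ K))) = some (w', e)) := by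
          rintro (h | ⟨w', e, h, he⟩)
          · exact Option.some_ne_none _ h
          · exact h.1 (Prod.mk.inj (Option.some.inj he)).1
        rw [xM_self, if_neg h0, ite_self, add_zero]
        by_cases h : d' = d
        · rw [if_pos h, if_pos (by rw [h]), one_mul]
        · rw [if_neg h, if_neg (fun hh => h (congrArg Prod.snd (Option.some.inj hh))), zero_mul]
      · have h0 : ¬ (some (w, d') : Option (V × (X ⧸ K))) = some (v, d) :=
          fun hh => hw (congrArg Prod.fst (Option.some.inj hh))
        rw [if_neg h0, zero_add]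
        by_cases ha : E.Adj v w
        · have h1 : ¬ ((some (w, d') : Option (V × (X ⧸ K))) = none ∨
              ∃ w' e, nc E v w' ∧ (some (w, d') : Option (V × (X ⧸ K))) = some (w', e)) := by
            rintro (h | ⟨w', e, h, he⟩)
            · exact Option.some_ne_none _ h
            · obtain ⟨h2, -⟩ := Prod.mk.inj (Option.some.inj he)
              subst h2
              exact h.2 ha
          rw [xM_adj E K x v w ha, zero_mul, if_neg h1, ite_self]
        · have hn : nc E v w := ⟨fun h => hw h.symm, ha⟩
          rw [xM_nc E K x v w hn, if_pos (Or.inr ⟨w, d', hn, rfl⟩)]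
          split_ifs
          · rfl
          · rw [zero_mul]
  rw [Matrix.mul_apply, Finset.sum_congr rfl fun c _ => key c, Finset.sum_add_distrib,
    Finset.sum_ite_eq' Finset.univ (some (v, d)) fun c => M c none, if_pos (Finset.mem_univ _)]
  congr 1
  by_cases h : d = k0 K
  · simp only [if_pos h]
    rfl
  · simp only [if_neg h, Finset.sum_const_zero]

private theorem rM_none (v : V) (g : X)
    (M : Matrix (Option (V × (X ⧸ K))) (Option (V × (X ⧸ K))) (MonoidAlgebra ℤ Q)) :
    (rM E K i x v g * M) none none = M none none := by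
  rw [rM_apply, add_mul, Matrix.add_apply, one_mul, Matrix.mul_assoc, Matrix.mul_assoc,
    Matrix.mul_apply, Finset.sum_eq_zero, add_zero]
  intro d _
  unfold iM
  rw [Matrix.of_apply, if_neg (fun h => Option.some_ne_none _ h.symm), zero_mul]

private theorem rM_ne (v w : V) (h : w ≠ v) (d : X ⧸ K) (g : X)
    (M : Matrix (Option (V × (X ⧸ K))) (Option (V × (X ⧸ K))) (MonoidAlgebra ℤ Q)) :
    (rM E K i x v g * M) (some (w, d)) none = M (some (w, d)) none := by
  rw [rM_apply, add_mul, Matrix.add_apply, one_mul, Matrix.mul_assoc, Matrix.mul_assoc,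
    Matrix.mul_apply, Finset.sum_eq_zero, add_zero]
  intro e _
  unfold iM
  rw [Matrix.of_apply, if_neg (fun hh => h (congrArg Prod.fst (Option.some.inj hh))), zero_mul]

private theorem rM_self (v : V) (d : X ⧸ K) (g : X)
    (M : Matrix (Option (V × (X ⧸ K))) (Option (V × (X ⧸ K))) (MonoidAlgebra ℤ Q)) :
    (rM E K i x v g * M) (some (v, d)) none =
      MonoidAlgebra.single (i (rhK K g (g⁻¹ • d))) 1 * M (some (v, g⁻¹ • d)) none +
      ((if d = g • k0 K then MonoidAlgebra.single (i (rhK K g (k0 K))) 1 else 0) -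
        (if d = k0 K then 1 else 0)) * yy E K x v M := by
  classical
  rw [rM_apply, add_mul, Matrix.add_apply, one_mul, Matrix.mul_assoc, Matrix.mul_assoc,
    Matrix.mul_apply, Finset.sum_eq_single d]
  · have h1 : iM K Q v (some (v, d)) d = 1 := by
      unfold iM
      rw [Matrix.of_apply, if_pos rfl]
    rw [h1, one_mul, Matrix.sub_mul, Matrix.sub_apply, Matrix.one_mul, xM_mul, Matrix.mul_apply]
    have h2 : ∀ e, aM K i g d e * (xM E K x v * M) e none =
        (if e = g⁻¹ • d then MonoidAlgebra.single (i (rhK K g e)) 1 * M (some (v, e)) none else 0) +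
        (if e = k0 K then aM K i g d e * yy E K x v M else 0) := by
      intro e
      rw [xM_mul, mul_add]
      congr 1
      · rw [aM_apply]
        by_cases h : d = g • e
        · rw [if_pos h, if_pos (by rw [h, inv_smul_smul])]
        · rw [if_neg h, if_neg (fun hh => h (by rw [hh, smul_inv_smul])), zero_mul]
      · split_ifs
        · rfl
        · rw [mul_zero]
    rw [Finset.sum_congr rfl fun e _ => h2 e, Finset.sum_add_distrib,
      Finset.sum_ite_eq' Finset.univ (g⁻¹ • d), if_pos (Finset.mem_univ _),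
      Finset.sum_ite_eq' Finset.univ (k0 K), if_pos (Finset.mem_univ _), aM_apply, sub_mul]
    have h3 : (if d = k0 K then yy E K x v M else 0) =
        (if d = k0 K then (1 : MonoidAlgebra ℤ Q) else 0) * yy E K x v M := by
      split_ifs
      · rw [one_mul]
      · rw [zero_mul]
    rw [h3]
    abel
  · intro e _ he
    unfold iM
    rw [Matrix.of_apply, if_neg (fun h => he (congrArg Prod.snd (Option.some.inj h)).symm), zero_mul]
  · intro h
    exact absurd (Finset.mem_univ _) h

/-! ### Coefficients -/

private theorem yy_coeff_ne {Pos : Q → Prop} (v : V)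
    (M : Matrix (Option (V × (X ⧸ K))) (Option (V × (X ⧸ K))) (MonoidAlgebra ℤ Q))
    (hM : ∀ c u, (M c none).coeff u ≠ 0 → Pos u) (w : Q) (h : (yy E K x v M).coeff w ≠ 0) :
    ∃ c q, Pos q ∧ w = i 1 * x (v, c) * q := by
  classical
  unfold yy at h
  rw [MonoidAlgebra.coeff_sum, Finsupp.finsetSum_apply] at h
  obtain ⟨c, -, hc⟩ := Finset.exists_ne_zero_of_sum_ne_zero h
  split_ifs at hc with h1
  · rw [MonoidAlgebra.coeff_single_mul_apply, one_mul] at hc
    refine ⟨c, _, hM c _ hc, ?_⟩
    rw [map_one, one_mul, mul_inv_cancel_left]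
  · rw [MonoidAlgebra.coeff_zero] at hc
    exact absurd rfl hc

open Classical in
private theorem yy_coeff {Pos : Q → Prop} (hpos : IsPos i x Pos) (v : V)
    (M : Matrix (Option (V × (X ⧸ K))) (Option (V × (X ⧸ K))) (MonoidAlgebra ℤ Q))
    (hM : ∀ c u, (M c none).coeff u ≠ 0 → Pos u) (n : K) (c : Option (V × (X ⧸ K)))
    (hc : c = none ∨ ∃ w d', nc E v w ∧ c = some (w, d')) (q : Q) (hq : Pos q) :
    (yy E K x v M).coeff (i n * x (v, c) * q) = if n = 1 then (M c none).coeff q else 0 := by
  classical
  unfold yy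
  rw [MonoidAlgebra.coeff_sum, Finsupp.finsetSum_apply, Finset.sum_eq_single c]
  · rw [if_pos hc, MonoidAlgebra.coeff_single_mul_apply, one_mul]
    by_cases hn : n = 1
    · rw [if_pos hn, hn, map_one, one_mul, inv_mul_cancel_left]
    · rw [if_neg hn]
      by_contra hcon
      apply hn
      have h1 := hM c _ hcon
      have h2 : i n * x (v, c) * q = i 1 * x (v, c) * ((x (v, c))⁻¹ * (i n * x (v, c) * q)) := by
        rw [map_one, one_mul, mul_inv_cancel_left]
      exact (hpos.inj _ _ _ _ _ _ hq h1 h2).1
  · intro c' _ hne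
    split_ifs with h1
    · rw [MonoidAlgebra.coeff_single_mul_apply, one_mul]
      by_contra hcon
      apply hne
      have h1 := hM c' _ hcon
      have h2 : i n * x (v, c) * q = i 1 * x (v, c') * ((x (v, c'))⁻¹ * (i n * x (v, c) * q)) := by
        rw [map_one, one_mul, mul_inv_cancel_left]
      exact (congrArg Prod.snd (hpos.inj _ _ _ _ _ _ hq h1 h2).2.1).symm
    · rw [MonoidAlgebra.coeff_zero]
      rfl
  · intro h
    exact absurd (Finset.mem_univ _) h

variable (ρ : (GraphProduct E fun _ : V => X) →*
    Matrix (Option (V × (X ⧸ K))) (Option (V × (X ⧸ K))) (MonoidAlgebra ℤ Q))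
  (hρ : ∀ v g, ρ (GraphProduct.of E (fun _ : V => X) v g) = rM E K i x v g)

private theorem gev_cons (p : V × X) (ω : List (V × X)) :
    gev E X (p :: ω) = GraphProduct.of E (fun _ : V => X) p.1 p.2 * gev E X ω := by
  unfold gev
  rw [List.map_cons, List.prod_cons]

include hρ

private theorem rho_cons (p : V × X) (ω : List (V × X)) :
    ρ (gev E X (p :: ω)) = rM E K i x p.1 p.2 * ρ (gev E X ω) := by
  rw [gev_cons, map_mul, hρ]

private theorem rho_none (ω : List (V × X)) : ρ (gev E X ω) none none = 1 := by
  induction ω with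
  | nil =>
    have : gev E X ([] : List (V × X)) = 1 := rfl
    rw [this, map_one, Matrix.one_apply_eq]
  | cons p ω ih => rw [rho_cons E K i x ρ hρ, rM_none, ih]

private theorem rho_supp {Pos : Q → Prop} (hpos : IsPos i x Pos) (ω : List (V × X)) :
    ∀ (c : V × (X ⧸ K)) (u : Q), (ρ (gev E X ω) (some c) none).coeff u ≠ 0 →
      ∃ n t q, Pos q ∧ u = i n * x t * q := by
  classical
  induction ω with
  | nil =>
    intro c u h
    have h0 : gev E X ([] : List (V × X)) = 1 := rfl
    rw [h0, map_one, Matrix.one_apply_ne (Option.some_ne_none _), MonoidAlgebra.coeff_zero] at h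
    exact absurd rfl h
  | cons p ω ih =>
    rintro ⟨w, d⟩ u h
    rw [rho_cons E K i x ρ hρ] at h
    by_cases hw : w = p.1
    · subst hw
      have hM : ∀ c u, (ρ (gev E X ω) c none).coeff u ≠ 0 → Pos u := by
        intro c u hu
        rcases c with _ | c
        · rw [rho_none E K i x ρ hρ, MonoidAlgebra.one_def, MonoidAlgebra.coeff_single] at hu
          have : u = 1 := by
            by_contra hne
            exact hu (Finsupp.single_eq_of_ne hne)
          rw [this]
          exact hpos.one
        · obtain ⟨n, t, q, hq, rfl⟩ := ih c u hu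
          exact hpos.mul _ _ _ hq
      rw [rM_self, MonoidAlgebra.coeff_add, Finsupp.add_apply, sub_mul, MonoidAlgebra.coeff_sub,
        Finsupp.sub_apply] at h
      by_cases h1 : (MonoidAlgebra.single (i (rhK K p.2 (p.2⁻¹ • d))) (1 : ℤ) *
          ρ (gev E X ω) (some (p.1, p.2⁻¹ • d)) none).coeff u = 0
      · by_cases h2 : ((if d = p.2 • k0 K then MonoidAlgebra.single (i (rhK K p.2 (k0 K))) (1 : ℤ)
            else 0) * yy E K x p.1 (ρ (gev E X ω))).coeff u = 0
        · rw [h1, h2, zero_add, zero_sub, neg_ne_zero] at h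
          split_ifs at h with h3
          · rw [one_mul] at h
            obtain ⟨c, q, hq, hu⟩ := yy_coeff_ne E K i x p.1 _ hM u h
            exact ⟨1, _, q, hq, hu⟩
          · rw [zero_mul, MonoidAlgebra.coeff_zero] at h
            exact absurd rfl h
        · split_ifs at h2 with h3
          · rw [MonoidAlgebra.coeff_single_mul_apply, one_mul] at h2
            obtain ⟨c, q, hq, hu⟩ := yy_coeff_ne E K i x p.1 _ hM _ h2
            refine ⟨rhK K p.2 (k0 K), (p.1, c), q, hq, ?_⟩
            rw [inv_mul_eq_iff_eq_mul] at hu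
            rw [hu, map_one, one_mul, mul_assoc]
          · rw [zero_mul, MonoidAlgebra.coeff_zero] at h2
            exact absurd rfl h2
      · rw [MonoidAlgebra.coeff_single_mul_apply, one_mul] at h1
        obtain ⟨n, t, q, hq, hu⟩ := ih _ _ h1
        refine ⟨rhK K p.2 (p.2⁻¹ • d) * n, t, q, hq, ?_⟩
        rw [inv_mul_eq_iff_eq_mul] at hu
        rw [hu, map_mul, mul_assoc, mul_assoc, mul_assoc]
    · rw [rM_ne E K i x p.1 w hw] at h
      exact ih _ _ h

private theorem rho_pos {Pos : Q → Prop} (hpos : IsPos i x Pos) (ω : List (V × X))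
    (c : Option (V × (X ⧸ K))) (u : Q) (hu : (ρ (gev E X ω) c none).coeff u ≠ 0) : Pos u := by
  rcases c with _ | c
  · rw [rho_none E K i x ρ hρ, MonoidAlgebra.one_def, MonoidAlgebra.coeff_single] at hu
    have : u = 1 := by
      by_contra hne
      exact hu (Finsupp.single_eq_of_ne hne)
    rw [this]
    exact hpos.one
  · obtain ⟨n, t, q, hq, rfl⟩ := rho_supp E K i x ρ hρ hpos ω c u hu
    exact hpos.mul _ _ _ hq

omit hρ

/-- the row of `L` -/
private def rL : List (V × X) → Option (V × (X ⧸ K))
  | [] => none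
  | p :: _ => some (p.1, p.2 • k0 K)

/-- the word of `L` -/
private noncomputable def uL : List (V × X) → Q
  | [] => 1
  | p :: L => i (rhK K p.2 (k0 K)) * x (p.1, rL K L) * uL L

private theorem uL_pos {Pos : Q → Prop} (hpos : IsPos i x Pos) (L : List (V × X)) :
    Pos (uL K i x L) := by
  induction L with
  | nil => exact hpos.one
  | cons p L ih => exact hpos.mul _ _ _ ih

private theorem rL_nc (p : V × X) (L : List (V × X))
    (hL : ((p :: L).map Prod.fst).IsChain (nc E)) :
    rL K L = none ∨ ∃ w d', nc E p.1 w ∧ rL K L = some (w, d') := by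
  cases L with
  | nil => exact Or.inl rfl
  | cons q L =>
    right
    rw [List.map_cons, List.map_cons, List.isChain_cons_cons] at hL
    exact ⟨q.1, _, hL.1, rfl⟩

include hρ

private theorem rho_coeff {Pos : Q → Prop} (hpos : IsPos i x Pos) (ω : List (V × X)) :
    ∀ L : List (V × X), (L.map Prod.fst).IsChain (nc E) →
      (ρ (gev E X ω) (rL K L) none).coeff (uL K i x L) = lcf ω L := by
  classical
  induction ω with
  | nil =>
    intro L hL
    have h0 : gev E X ([] : List (V × X)) = 1 := rfl
    cases L with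
    | nil =>
      rw [h0, map_one]
      show ((1 : Matrix (Option (V × (X ⧸ K))) (Option (V × (X ⧸ K))) (MonoidAlgebra ℤ Q))
        none none).coeff 1 = lcf [] []
      rw [Matrix.one_apply_eq, MonoidAlgebra.one_def, MonoidAlgebra.coeff_single,
        Finsupp.single_eq_same, lcf]
    | cons p L =>
      rw [h0, map_one, lcf]
      show ((1 : Matrix (Option (V × (X ⧸ K))) (Option (V × (X ⧸ K))) (MonoidAlgebra ℤ Q))
        (some (p.1, p.2 • k0 K)) none).coeff _ = 0
      rw [Matrix.one_apply_ne (Option.some_ne_none _), MonoidAlgebra.coeff_zero]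
      rfl
  | cons p ω ih =>
    intro L hL
    cases L with
    | nil =>
      show (ρ (gev E X (p :: ω)) none none).coeff 1 = lcf (p :: ω) []
      rw [rho_none E K i x ρ hρ, MonoidAlgebra.one_def, MonoidAlgebra.coeff_single,
        Finsupp.single_eq_same, lcf]
    | cons q L =>
      rw [rho_cons E K i x ρ hρ, lcf]
      by_cases hq : q.1 = p.1
      · rw [if_pos hq]
        have hM := rho_pos E K i x ρ hρ hpos ω
        have hL' : (L.map Prod.fst).IsChain (nc E) := hL.tail
        have hn := rL_nc E K q L hL
        rw [hq] at hn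
        have hP := uL_pos K i x hpos L
        have e1 : rL K (q :: L) = some (p.1, q.2 • k0 K) := by rw [← hq]; rfl
        have e2 : uL K i x (q :: L) = i (rhK K q.2 (k0 K)) * x (p.1, rL K L) * uL K i x L := by
          rw [← hq]; rfl
        rw [e1, e2, rM_self, MonoidAlgebra.coeff_add, Finsupp.add_apply, sub_mul,
          MonoidAlgebra.coeff_sub, Finsupp.sub_apply, sub_mul]
        congr 1
        · -- the shifted word
          have h1 := ih ((p.1, p.2⁻¹ * q.2) :: L) (by
            cases L with
            | nil => exact List.isChain_singleton _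
            | cons q' L =>
              rw [List.map_cons, List.map_cons, List.isChain_cons_cons] at hL ⊢
              rw [hq] at hL
              exact hL)
          rw [← h1, MonoidAlgebra.coeff_single_mul_apply, one_mul]
          have h2 : rL K ((p.1, p.2⁻¹ * q.2) :: L) = some (p.1, p.2⁻¹ • q.2 • k0 K) := by
            show some (p.1, (p.2⁻¹ * q.2) • k0 K) = _
            rw [mul_smul]
          have h3 : uL K i x ((p.1, p.2⁻¹ * q.2) :: L) =
              (i (rhK K p.2 (p.2⁻¹ • q.2 • k0 K)))⁻¹ *
                (i (rhK K q.2 (k0 K)) * x (p.1, rL K L) * uL K i x L) := by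
            show i (rhK K (p.2⁻¹ * q.2) (k0 K)) * x (p.1, rL K L) * uL K i x L = _
            have h4 := rhK_mul K p.2 (p.2⁻¹ * q.2) (k0 K)
            rw [mul_inv_cancel_left, mul_smul] at h4
            rw [h4, map_mul]
            group
          rw [h2, h3]
        · have h5 : ∀ n : K, (yy E K x p.1 (ρ (gev E X ω))).coeff
              (i n * x (p.1, rL K L) * uL K i x L) = if n = 1 then lcf ω L else 0 := by
            intro n
            rw [yy_coeff E K i x hpos p.1 _ hM n _ hn _ hP, ih L hL']
          congr 1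
          · by_cases h6 : q.2 = p.2
            · rw [if_pos h6, h6, if_pos rfl, MonoidAlgebra.coeff_single_mul_apply, one_mul, one_mul,
                mul_assoc, inv_mul_cancel_left]
              have h7 := h5 1
              rw [map_one, one_mul, if_pos rfl] at h7
              exact h7
            · rw [if_neg h6, zero_mul]
              by_cases h7 : q.2 • k0 K = p.2 • k0 K
              · rw [if_pos h7, MonoidAlgebra.coeff_single_mul_apply, one_mul, mul_assoc, ← mul_assoc,
                  ← map_inv, ← map_mul, ← mul_assoc, h5, if_neg]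
                intro h8
                apply h6
                apply rh_inj K h7
                exact (inv_mul_eq_one.1 h8).symm
              · rw [if_neg h7, zero_mul, MonoidAlgebra.coeff_zero]
                rfl
          · by_cases h6 : q.2 = 1
            · rw [if_pos h6, h6, one_smul, if_pos rfl, one_mul, one_mul, rhK_one, h5, if_pos rfl]
            · rw [if_neg h6, zero_mul]
              by_cases h7 : q.2 • k0 K = k0 K
              · rw [if_pos h7, one_mul, h5, if_neg]
                intro h8
                apply h6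
                apply rh_inj K (d := k0 K)
                · rw [h7, one_smul]
                · rw [h8, rhK_one]
              · rw [if_neg h7, zero_mul, MonoidAlgebra.coeff_zero]
                rfl
      · rw [if_neg hq, ← ih (q :: L) hL]
        show (_ : MonoidAlgebra ℤ Q).coeff _ = _
        have e1 : rL K (q :: L) = some (q.1, q.2 • k0 K) := rfl
        rw [e1, rM_ne E K i x p.1 q.1 hq]

end

theorem exists_rho {V : Type u} [Finite V] (E : SimpleGraph V) (X : Type u) [Group X]
    (K : Subgroup X) [K.FiniteIndex] (Q : Type u) [Group Q] (i : K →* Q)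
    (x : V × Option (V × (X ⧸ K)) → Q) (Pos : Q → Prop) (hpos : IsPos i x Pos) :
    ∃ (I : Type u) (_ : Fintype I) (_ : DecidableEq I)
      (ρ : (GraphProduct E fun _ : V => X) →* Matrix I I (MonoidAlgebra ℤ Q)),
      ∀ L : List (V × X), (L.map Prod.fst).IsChain (nc E) →
        ∃ (a b : I) (u : Q), ∀ ω : List (V × X), (ρ (gev E X ω) a b).coeff u = lcf ω L := by
  classical
  let _ : Fintype V := Fintype.ofFinite V
  let _ : Fintype (X ⧸ K) := Subgroup.fintypeQuotientOfFiniteIndex
  obtain ⟨ρ, hρ⟩ := GraphProduct.exists_lift E (fun _ : V => X) (rM E K i x)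
    fun v w h g g' => rM_commute E K i x v w h g g'
  exact ⟨Option (V × (X ⧸ K)), inferInstance, inferInstance, ρ, fun L hL =>
    ⟨rL K L, none, uL K i x L, fun ω => rho_coeff E K i x ρ hρ hpos ω L hL⟩⟩

section

variable {V X : Type u} [Group X] (E : SimpleGraph V) (K : Subgroup X) {Q : Type u} [Group Q]
  (i : K →* Q) (x : V × Option (V × (X ⧸ K)) → Q) {W : Type u} [Monoid W] (θ : W →* Q)

private theorem single_mem_range {q : Q} (h : ∃ w, θ w = q) :
    (MonoidAlgebra.single q 1 : MonoidAlgebra ℤ Q) ∈ (MonoidAlgebra.mapDomainRingHom ℤ θ).range := by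
  obtain ⟨w, rfl⟩ := h
  exact ⟨MonoidAlgebra.single w 1, by simp⟩

private theorem mul_ent {A B C : Type u} [Fintype B] (S : Subring (MonoidAlgebra ℤ Q))
    {M : Matrix A B (MonoidAlgebra ℤ Q)} {M' : Matrix B C (MonoidAlgebra ℤ Q)}
    (h : ∀ a b, M a b ∈ S) (h' : ∀ b c, M' b c ∈ S) (a : A) (c : C) : (M * M') a c ∈ S := by
  rw [Matrix.mul_apply]
  exact S.sum_mem fun b _ => S.mul_mem (h a b) (h' b c)

private theorem one_ent {A : Type u} [DecidableEq A] (S : Subring (MonoidAlgebra ℤ Q)) (a b : A) :
    (1 : Matrix A A (MonoidAlgebra ℤ Q)) a b ∈ S := by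
  rw [Matrix.one_apply]
  split_ifs
  · exact S.one_mem
  · exact S.zero_mem

variable [Fintype (X ⧸ K)] [DecidableEq (X ⧸ K)] [Fintype V] [DecidableEq V]

private theorem rM_range (hi : ∀ k, ∃ w, θ w = i k) (hx : ∀ t, ∃ w, θ w = x t) (v : V) (g : X)
    (a b : Option (V × (X ⧸ K))) :
    rM E K i x v g a b ∈ (MonoidAlgebra.mapDomainRingHom ℤ θ).range := by
  set S := (MonoidAlgebra.mapDomainRingHom ℤ θ).range
  have h1 : ∀ d' d, aM K i g d' d ∈ S := by
    intro d' d
    rw [aM_apply]
    split_ifs
    · exact single_mem_range θ (hi _)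
    · exact S.zero_mem
  have h2 : ∀ d' d, (aM K i g - 1) d' d ∈ S := fun d' d => by
    rw [Matrix.sub_apply]
    exact S.sub_mem (h1 d' d) (one_ent S d' d)
  have h3 : ∀ r d, iM K Q v r d ∈ S := by
    intro r d
    unfold iM
    rw [Matrix.of_apply]
    split_ifs
    · exact S.one_mem
    · exact S.zero_mem
  have h4 : ∀ d c, xM E K x v d c ∈ S := by
    intro d c
    unfold xM
    rw [Matrix.of_apply]
    split_ifs
    · exact S.one_mem
    · exact S.zero_mem
    · exact S.zero_mem
    · exact single_mem_range θ (hx _)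
    · exact S.zero_mem
  rw [rM_apply, Matrix.add_apply]
  exact S.add_mem (one_ent S a b) (mul_ent S (mul_ent S h3 h2) h4 a b)

private theorem uL_range (hi : ∀ k, ∃ w, θ w = i k) (hx : ∀ t, ∃ w, θ w = x t)
    (L : List (V × X)) : ∃ w, θ w = uL K i x L := by
  induction L with
  | nil => exact ⟨1, map_one θ⟩
  | cons p L ih =>
    obtain ⟨w, hw⟩ := ih
    obtain ⟨w1, h1⟩ := hi (rhK K p.2 (k0 K))
    obtain ⟨w2, h2⟩ := hx (p.1, rL K L)
    refine ⟨w1 * w2 * w, ?_⟩
    rw [map_mul, map_mul, hw, h1, h2]
    rfl

end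

theorem exists_rho_range {V : Type u} [Finite V] (E : SimpleGraph V) (X : Type u) [Group X]
    (K : Subgroup X) [K.FiniteIndex] (Q : Type u) [Group Q] (i : K →* Q)
    (x : V × Option (V × (X ⧸ K)) → Q) (Pos : Q → Prop) (hpos : IsPos i x Pos)
    (W : Type u) [Monoid W] (θ : W →* Q) (hi : ∀ k, ∃ w, θ w = i k) (hx : ∀ t, ∃ w, θ w = x t) :
    ∃ (I : Type u) (_ : Fintype I) (_ : DecidableEq I)
      (ρ : (GraphProduct E fun _ : V => X) →* Matrix I I (MonoidAlgebra ℤ Q)),
      (∀ g a b, ρ g a b ∈ (MonoidAlgebra.mapDomainRingHom ℤ θ).range) ∧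
      ∀ L : List (V × X), (L.map Prod.fst).IsChain (nc E) →
        ∃ (a b : I) (w : W), ∀ ω : List (V × X), (ρ (gev E X ω) a b).coeff (θ w) = lcf ω L := by
  classical
  let _ : Fintype V := Fintype.ofFinite V
  let _ : Fintype (X ⧸ K) := Subgroup.fintypeQuotientOfFiniteIndex
  obtain ⟨ρ, hρ⟩ := GraphProduct.exists_lift E (fun _ : V => X) (rM E K i x)
    fun v w h g g' => rM_commute E K i x v w h g g'
  refine ⟨Option (V × (X ⧸ K)), inferInstance, inferInstance, ρ, fun g => ?_, fun L hL => ?_⟩
  · obtain ⟨ω, rfl⟩ := gev_surjective E X g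
    induction ω with
    | nil =>
      intro a b
      have h0 : gev E X ([] : List (V × X)) = 1 := rfl
      rw [h0, map_one]
      exact one_ent _ a b
    | cons p ω ih =>
      intro a b
      rw [rho_cons E K i x ρ hρ]
      exact mul_ent _ (rM_range E K i x θ hi hx p.1 p.2) ih a b
  · obtain ⟨w, hw⟩ := uL_range K i x θ hi hx L
    exact ⟨rL K L, none, w, fun ω => by rw [hw]; exact rho_coeff E K i x ρ hρ hpos ω L hL⟩

end Pool.Agent.H36.GX
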