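import Pool.Agent.H36.GX.Flat
import Pool.Agent.H36.GX.Pos
import Pool.Agent.H36.GX.Rho
import Pool.Agent.H36.GX.Inj
import Pool.Agent.H36.OX.FinR

/-!
# Project GX: finite index overgroups (module Vi)

`Good.vi`: if the group rings of all iterated graph products of groups in `C` have the property `P`, this holds
for the class of the groups with a subgroup of finite index which embeds in such a graph product.
-/

set_option autoImplicit false

namespace Pool.Agent.H36.GX

open Pool.Agent.H66.NCL Pool.Agent.H36.OX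

universe u

/-- the powers of an iterated graph product -/
private theorem P_pow_vi {A : Type u} [Ring A] {C : (G : Type u) → [Group G] → Prop}
    (h : Good A C) {Q : Type u} [Group Q] (hQ : It C Q) (k : ℕ) :
    P.{u, u} (MonoidAlgebra A (Fin k → Q)) := by
  obtain ⟨f, hf⟩ := exists_pi_gp (V := ULift.{u} (Fin k)) (fun _ => Q)
  let e : (Fin k → Q) →* (ULift.{u} (Fin k) → Q) :=
    { toFun := fun g v => g v.down
      map_one' := rfl
      map_mul' := fun _ _ => rfl }
  have he : Function.Injective e := by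
    intro g g' hg
    funext v
    exact congrFun hg (ULift.up v)
  have h1 : P.{u, u} (MonoidAlgebra A
      (GraphProduct (⊤ : SimpleGraph (ULift.{u} (Fin k))) fun _ => Q)) :=
    h _ (It.prod _ _ _ fun _ => hQ)
  exact P_submonoidR (f.comp e) (fun a b hab => he (hf hab)) h1

private theorem P_gp_vi {A : Type u} [Ring A] {C : (G : Type u) → [Group G] → Prop}
    (hC : ∀ (G : Type u) [Group G], TFSolv G → C G) (h : Good A C) {V : Type u} [Finite V]
    (E : SimpleGraph V) (U : V → Type u) [∀ v, Group (U v)] (hU : ∀ v, Vi C (U v)) :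
    P.{u, u} (MonoidAlgebra A (GraphProduct E U)) := by
  choose H hH N hN f hIt hf using hU
  let _ : ∀ v, Group (N v) := hN
  obtain ⟨c, hc⟩ := GraphProduct.exists_const E U
  refine P_submonoidR c hc ?_
  let K : Subgroup (∀ v, U v) := ⨅ v, (H v).comap (Pi.evalMonoidHom U v)
  have hKm : ∀ (x : K) (v : V), (x : ∀ v, U v) v ∈ H v := by
    intro x v
    have h1 := (Subgroup.mem_iInf.1 x.2) v
    exact h1
  have hK : K.FiniteIndex := by
    refine Subgroup.finiteIndex_iInf fun v => ⟨?_⟩
    rw [Subgroup.index_comap_of_surjective (f := Pi.evalMonoidHom U v) (H v)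
      (Function.surjective_eval v)]
    exact (hH v).index_ne_zero
  let i₀ : K →* (∀ v, N v) :=
    { toFun := fun x v => f v ⟨(x : ∀ v, U v) v, hKm x v⟩
      map_one' := by
        funext v
        exact map_one (f v)
      map_mul' := fun x y => by
        funext v
        exact map_mul (f v) ⟨(x : ∀ v, U v) v, hKm x v⟩ ⟨(y : ∀ v, U v) v, hKm y v⟩ }
  have hi₀ : Function.Injective i₀ := by
    intro x y hxy
    apply Subtype.ext
    funext v
    have h1 := hf v (congrFun hxy v)
    exact congrArg Subtype.val h1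
  obtain ⟨g, hg⟩ := exists_pi_gp N
  have hN' : It C (GraphProduct (⊤ : SimpleGraph V) N) := It.prod _ _ _ hIt
  obtain ⟨Q, _, i, x, Pos, hQ, hpos⟩ :=
    It.exists_pos hC hN' (V × Option (V × ((∀ v, U v) ⧸ K)))
  have hpos' : IsPos (i.comp (g.comp i₀)) x Pos := by
    refine ⟨hpos.one, fun n t q hq => hpos.mul _ t q hq, ?_⟩
    intro n t q n' t' q' hq hq' he
    obtain ⟨h1, h2, h3⟩ := hpos.inj _ t q _ t' q' hq hq' he
    exact ⟨hi₀ (hg h1), h2, h3⟩
  obtain ⟨I, _, _, ρ, hρ⟩ := exists_rho E (∀ v, U v) K Q (i.comp (g.comp i₀)) x Pos hpos'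
  exact P_gpR E (∀ v, U v) Q (fun k => P_pow_vi h hQ k) I ρ hρ

theorem Good.vi {A : Type u} [Ring A] {C : (G : Type u) → [Group G] → Prop}
    (hC : ∀ (G : Type u) [Group G], TFSolv G → C G) (h : Good A C) : Good A (Vi C) := by
  intro G _ hG
  obtain ⟨V, _, E, U, _, hU, ⟨φ⟩⟩ := It.flat hG
  exact P_submonoidR φ.toMonoidHom φ.injective (P_gp_vi hC h E U hU)

end Pool.Agent.H36.GX
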