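import Pool.Agent.H36.GX.Flat
import Pool.Agent.H36.GX.Vi
import Pool.Agent.H36.GX.Un
import Pool.Agent.H36.GX.Main

/-!
# Project GX: group rings of the groups in the class `GrClass`
-/

set_option autoImplicit false

namespace Pool.Agent.H36.GX

open Pool.Agent.H66.NCL Pool.Agent.H36.OX

universe u

theorem It.mono {C C' : (G : Type u) → [Group G] → Prop}
    (h : ∀ (G : Type u) [Group G], C G → C' G) {G : Type u} [Group G] (hG : It C G) :
    It C' G := by
  induction hG with
  | base G hG => exact It.base G (h G hG)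
  | prod V E G _ ih => exact It.prod V E G ih

theorem Good.anti {A : Type u} [Ring A] {C C' : (G : Type u) → [Group G] → Prop}
    (h : ∀ (G : Type u) [Group G], C G → C' G) (hG : Good A C') : Good A C :=
  fun G _ hG' => hG G (hG'.mono h)

private theorem cls_of_equiv {N : Type u} [Group N] (hN : OX.TFSolv N) :
    ∀ {M : Type u} [Group M] (_ : N ≃* M), OX.TFSolv M := by
  induction hN with
  | triv N h =>
    intro M _ e
    refine OX.TFSolv.triv M fun x => ?_
    apply e.symm.injective
    rw [map_one]
    exact h _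
  | step N₀ N i z h hz hN0 _ =>
    intro M _ e
    obtain ⟨σ, hσ⟩ := h
    refine OX.TFSolv.step N₀ M (e.toMonoidHom.comp i) (e z) ⟨σ, ?_⟩ ?_ hN0
    · intro x
      show e z * e (i x) = e (i (σ x)) * e z
      rw [← map_mul, ← map_mul, hσ]
    · have : (fun p : N₀ × ℤ => (e.toMonoidHom.comp i) p.1 * e z ^ p.2) =
          e ∘ fun p : N₀ × ℤ => i p.1 * z ^ p.2 := by
        funext p
        show e (i p.1) * e z ^ p.2 = e (i p.1 * z ^ p.2)
        rw [map_mul, map_zpow]
      rw [this]
      exact e.bijective.comp hz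
  | union N J K hdir htop _ ih =>
    intro M _ e
    refine OX.TFSolv.union M J (fun j => (K j).map e.toMonoidHom) ?_ ?_ ?_
    · intro a b
      obtain ⟨c, h1, h2⟩ := hdir a b
      exact ⟨c, Subgroup.map_mono h1, Subgroup.map_mono h2⟩
    · intro x
      obtain ⟨j, hj⟩ := htop (e.symm x)
      exact ⟨j, ⟨e.symm x, hj, e.apply_symm_apply x⟩⟩
    · intro j
      exact ih j ((K j).equivMapOfInjective e.toMonoidHom e.injective)

theorem good_tfSolv {A : Type u} [Ring A] (hA : OreTower A) :
    Good A (fun G _ => TFSolv G) := by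
  intro G _ hG
  obtain ⟨V, _, E, U, _, hU, ⟨e⟩⟩ := hG.flat
  refine P_tower3 hA G G (MonoidHom.id G) Function.injective_id ⊤ V E U
    (fun v => ⟨⊤, inferInstance, ?_⟩) (e.toMonoidHom.comp (⊤ : Subgroup G).subtype)
    (e.injective.comp Subtype.val_injective)
  exact cls_of_equiv (hU v) Subgroup.topEquiv.symm

/-- `C` and the groups which embed in one of the groups `G j` -/
def Add (C : (G : Type u) → [Group G] → Prop) {J : Type u} (G : J → Type u) [∀ j, Group (G j)] :
    (G' : Type u) → [Group G'] → Prop :=
  fun G' _ => C G' ∨ ∃ (j : J) (f : G' →* G j), Function.Injective f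

/-- the property which is proved by induction -/
def Adm (A : Type u) [Ring A] (G : Type u) [Group G] : Prop :=
  ∀ C : (G : Type u) → [Group G] → Prop, (∀ (G : Type u) [Group G], TFSolv G → C G) →
    Good A C → Good A (Add C fun _ : PUnit.{u + 1} => G)

/-- finite families -/
theorem Adm.finite {A : Type u} [Ring A] {C : (G : Type u) → [Group G] → Prop}
    (hC : ∀ (G : Type u) [Group G], TFSolv G → C G) (hG : Good A C) {J : Type u}
    (G : J → Type u) [∀ j, Group (G j)] (h : ∀ j, Adm A (G j)) (F : Finset J) :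
    Good A (Add C fun j : {j // j ∈ F} => G j) := by
  classical
  induction F using Finset.induction_on with
  | empty =>
    refine hG.anti ?_
    rintro G' _ (h' | ⟨⟨j, hj⟩, -⟩)
    · exact h'
    · exact absurd hj (Finset.notMem_empty j)
  | insert a F ha ih =>
    refine (h a _ (fun G' _ h' => Or.inl (hC G' h')) ih).anti ?_
    rintro G' _ (h' | ⟨⟨j, hj⟩, f, hf⟩)
    · exact Or.inl (Or.inl h')
    · by_cases hja : j = a
      · subst hja
        exact Or.inr ⟨PUnit.unit, f, hf⟩
      · exact Or.inl (Or.inr ⟨⟨j, (Finset.mem_insert.1 hj).resolve_left hja⟩, f, hf⟩)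

/-- infinite families -/
theorem Adm.family {A : Type u} [Ring A] {C : (G : Type u) → [Group G] → Prop}
    (hC : ∀ (G : Type u) [Group G], TFSolv G → C G) (hG : Good A C) {J : Type u}
    (G : J → Type u) [∀ j, Group (G j)] (h : ∀ j, Adm A (G j)) : Good A (Add C G) := by
  classical
  intro W _ hW
  obtain ⟨V, _, E, U, _, hU, ⟨e⟩⟩ := hW.flat
  have _ : Fintype V := Fintype.ofFinite V
  by_cases hJ : Nonempty J
  · have hj : ∀ v, ∃ j : J, C (U v) ∨ ∃ f : U v →* G j, Function.Injective f := by
      intro v
      rcases hU v with h1 | ⟨j, f, hf⟩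
      · exact ⟨hJ.some, Or.inl h1⟩
      · exact ⟨j, Or.inr ⟨f, hf⟩⟩
    choose j hj using hj
    have hgood := Adm.finite hC hG G h (Finset.univ.image j)
    have hit : It (Add C fun i : {i // i ∈ Finset.univ.image j} => G i) (GraphProduct E U) := by
      refine It.prod V E U fun v => It.base _ ?_
      rcases hj v with h1 | ⟨f, hf⟩
      · exact Or.inl h1
      · exact Or.inr ⟨⟨j v, Finset.mem_image_of_mem _ (Finset.mem_univ v)⟩, f, hf⟩
    exact P_submonoidR e.toMonoidHom e.injective (hgood _ hit)
  · have hit : It C (GraphProduct E U) := by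
      refine It.prod V E U fun v => It.base _ ?_
      rcases hU v with h1 | ⟨j, -⟩
      · exact h1
      · exact absurd ⟨j⟩ hJ
    exact P_submonoidR e.toMonoidHom e.injective (hG _ hit)

theorem GrClass.adm {A : Type u} [Ring A] {G : Type u} [Group G] (h : GrClass G) : Adm A G := by
  induction h with
  | solv G h =>
    intro C hC hG
    refine (Good.vi hC hG).anti ?_
    rintro G' _ (h' | ⟨_, f, hf⟩)
    · exact ⟨⊤, inferInstance, G', inferInstance, (⊤ : Subgroup G').subtype, It.base _ h',
        Subtype.val_injective⟩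
    · exact ⟨⊤, inferInstance, G, inferInstance, f.comp (⊤ : Subgroup G').subtype,
        It.base _ (hC _ h.tfSolv), hf.comp Subtype.val_injective⟩
  | sub G H f hf _ ih =>
    intro C hC hG
    refine (ih C hC hG).anti ?_
    rintro G' _ (h' | ⟨_, g, hg⟩)
    · exact Or.inl h'
    · exact Or.inr ⟨PUnit.unit, f.comp g, hf.comp hg⟩
  | fin G H _ ih =>
    intro C hC hG
    refine (Good.vi (fun G' _ h' => Or.inl (hC G' h')) (ih C hC hG)).anti ?_
    rintro G' _ (h' | ⟨_, g, hg⟩)
    · exact ⟨⊤, inferInstance, G', inferInstance, (⊤ : Subgroup G').subtype,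
        It.base _ (Or.inl h'), Subtype.val_injective⟩
    · have hfi : (H.comap g).FiniteIndex := by
        rw [Subgroup.finiteIndex_iff, Subgroup.index_comap]
        exact (Subgroup.instFiniteIndex_subgroupOf H g.range).index_ne_zero
      refine ⟨H.comap g, hfi, H, inferInstance,
        g.subgroupComap H, It.base _ (Or.inr ⟨PUnit.unit, MonoidHom.id H, fun _ _ hab => hab⟩), ?_⟩
      intro a b hab
      exact Subtype.ext (hg (congrArg Subtype.val hab))
  | prod V E G _ ih =>
    intro C hC hG
    have h1 := Adm.family hC hG G ih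
    refine (Good.vi (fun G' _ h' => Or.inl (hC G' h')) h1).anti ?_
    rintro G' _ (h' | ⟨_, g, hg⟩)
    · exact ⟨⊤, inferInstance, G', inferInstance, (⊤ : Subgroup G').subtype,
        It.base _ (Or.inl h'), Subtype.val_injective⟩
    · refine ⟨⊤, inferInstance, GraphProduct E G, inferInstance,
        g.comp (⊤ : Subgroup G').subtype, It.prod V E G fun v => It.base _
          (Or.inr ⟨v, MonoidHom.id _, fun _ _ hab => hab⟩), hg.comp Subtype.val_injective⟩
  | union G J K hdir htop _ ih =>
    intro C hC hG
    have h1 := Adm.family hC hG (fun j => K j) ih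
    refine Good.local ?_ h1
    rintro U _ (h' | ⟨_, f, hf⟩) F hF
    · exact ⟨U, inferInstance, MonoidHom.id U, fun _ _ hab => hab, by simp, Or.inl h'⟩
    · have hj : ∃ j, ∀ x ∈ F, f x ∈ K j := by
        classical
        choose j hj using fun x => htop (f x)
        obtain ⟨l, hl⟩ := hdir.finset_le (hF.toFinset.image j)
        refine ⟨l, fun x hx => hl (j x) (Finset.mem_image_of_mem _ (hF.mem_toFinset.2 hx)) (hj x)⟩
      obtain ⟨j, hj⟩ := hj
      refine ⟨(K j).comap f, inferInstance, ((K j).comap f).subtype, Subtype.val_injective, ?_,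
        Or.inr ⟨j, f.subgroupComap (K j), ?_⟩⟩
      · intro x hx
        exact ⟨⟨x, hj x hx⟩, rfl⟩
      · intro a b hab
        exact Subtype.ext (hf (congrArg Subtype.val hab))

theorem P_class_tower {A : Type u} [Ring A] (hA : OreTower A) {G : Type u} [Group G]
    (h : GrClass G) : P.{u, u} (MonoidAlgebra A G) :=
  h.adm (A := A) _ (fun _ _ h' => h') (good_tfSolv hA) G
    (It.base _ (Or.inr ⟨PUnit.unit, MonoidHom.id G, fun _ _ hab => hab⟩))

/-- **Matrix groups over monoid algebras of submonoids of groups in the class `GrClass`.** -/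
theorem P_class {A : Type u} [Ring A] (hA : (∀ x y : A, x * y = y * x) ∨ OreTower A)
    (S Γ : Type u) [Monoid S] [Group Γ] (ι : S →* Γ) (hι : Function.Injective ι)
    (hΓ : GrClass Γ) : P.{u, u} (MonoidAlgebra A S) := by
  rcases hA with hA | hA
  · let inst : CommRing A := { (inferInstance : Ring A) with mul_comm := hA }
    exact @P_commRing S _ (fun K _ => P_submonoidR ι hι
      (P_class_tower (OreTower.comm K mul_comm) hΓ)) A inst
  · exact P_submonoidR ι hι (P_class_tower hA hΓ)

end Pool.Agent.H36.GX
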