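import Pool.Agent.H36.GX.Defs

/-!
# Project GX: the class of groups. Definitions
-/

set_option autoImplicit false

namespace Pool.Agent.H36.GX

open Pool.Agent.H36.OX

universe u

/-- The smallest class of groups which contains the groups in `SolvTF` and is closed under
(sub) subgroups, (fin) overgroups of finite index, (prod) graph products over finite graphs (for example
free products and direct products), (union) directed unions. -/
inductive GrClass : (G : Type u) → [Group G] → Prop
  | solv (G : Type u) [Group G] (h : SolvTF G) : GrClass G
  | sub (G H : Type u) [Group G] [Group H] (f : G →* H) (hf : Function.Injective f)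
      (h : GrClass H) : GrClass G
  | fin (G : Type u) [Group G] (H : Subgroup G) [H.FiniteIndex] (h : GrClass H) : GrClass G
  | prod (V : Type u) [Finite V] (E : SimpleGraph V) (G : V → Type u) [∀ v, Group (G v)]
      (h : ∀ v, GrClass (G v)) : GrClass (GraphProduct E G)
  | union (G : Type u) [Group G] (J : Type u) [Nonempty J] (K : J → Subgroup G)
      (hdir : Directed (· ≤ ·) K) (htop : ∀ x, ∃ j, x ∈ K j) (h : ∀ j, GrClass (K j)) : GrClass G

end Pool.Agent.H36.GX
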