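import Pool.Agent.H36.OX.Defs

/-!
# Project GX: graph products. Definitions
-/

set_option autoImplicit false

namespace Pool.Agent.H36.GX

universe u

/-- The commutators of the elements `i v g` and `i w h` of the group `F`, for adjacent `v`, `w`, `g` in
`G v`, `h` in `G w`. -/
def Comm {V : Type u} (E : SimpleGraph V) (G : V → Type u) {F : Type u} [Group F]
    (i : ∀ v, G v → F) : Set F :=
  {x | ∃ (v w : V) (g : G v) (h : G w), E.Adj v w ∧ x = i v g * i w h * (i v g)⁻¹ * (i w h)⁻¹}

/-- The graph product of the groups `G v` over the graph `E`: the free product of the `G v`, modulo the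
commutators of the elements of `G v` with the elements of `G w`, for adjacent `v`, `w`. -/
def GraphProduct {V : Type u} (E : SimpleGraph V) (G : V → Type u) [∀ v, Group (G v)] : Type u :=
  Monoid.CoprodI G ⧸ Subgroup.normalClosure (Comm E G fun v g => Monoid.CoprodI.of (i := v) g)

instance {V : Type u} (E : SimpleGraph V) (G : V → Type u) [∀ v, Group (G v)] :
    Group (GraphProduct E G) :=
  QuotientGroup.Quotient.group _

end Pool.Agent.H36.GX
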