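import Pool.Agent.H36.GX.GP
import Pool.Agent.H36.GX.ClsBase

/-!
# Project GX: graph products of graph products
-/

set_option autoImplicit false

namespace Pool.Agent.H36.GX

open Pool.Agent.H66.NCL Pool.Agent.H36.OX

universe u v w

private theorem fl_comm {V : Type u} {E : SimpleGraph V} {G : V → Type u} [∀ v, Group (G v)]
    {H : Type v} [Group H] (f : GraphProduct E G →* H) (y : H)
    (h : ∀ v x, Commute (f (GraphProduct.of E G v x)) y) (g : GraphProduct E G) :
    Commute (f g) y := by
  have h1 : ((MulAut.conj y).toMonoidHom.comp f) = f := by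
    refine GraphProduct.hom_ext E G _ _ fun v x => ?_
    show y * f (GraphProduct.of E G v x) * y⁻¹ = _
    rw [← (h v x).eq, mul_inv_cancel_right]
  have h2 : y * f g * y⁻¹ = f g := DFunLike.congr_fun h1 g
  exact (mul_inv_eq_iff_eq_mul.1 h2).symm

/-- the graph of the flattened product -/
private def flGraph {V : Type u} (E : SimpleGraph V) (W : V → Type u)
    (E' : ∀ v, SimpleGraph (W v)) : SimpleGraph (Σ v, W v) where
  Adj p q := E.Adj p.1 q.1 ∨ ∃ (v : V) (a b : W v), (E' v).Adj a b ∧ p = ⟨v, a⟩ ∧ q = ⟨v, b⟩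
  symm := by
    constructor
    rintro p q (h | ⟨v, a, b, h, rfl, rfl⟩)
    · exact Or.inl h.symm
    · exact Or.inr ⟨v, b, a, h.symm, rfl, rfl⟩
  loopless := by
    constructor
    rintro p (h | ⟨v, a, b, h, rfl, h1⟩)
    · exact E.loopless.irrefl _ h
    · have h2 : a = b := by
        injection h1
      rw [h2] at h
      exact (E' v).loopless.irrefl _ h

theorem GraphProduct.flatten {V : Type u} (E : SimpleGraph V) (W : V → Type u)
    (E' : ∀ v, SimpleGraph (W v)) (U : ∀ v, W v → Type u) [∀ v a, Group (U v a)] :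
    ∃ E'' : SimpleGraph (Σ v, W v), Nonempty (GraphProduct E (fun v => GraphProduct (E' v) (U v)) ≃*
      GraphProduct E'' fun p => U p.1 p.2) := by
  refine ⟨flGraph E W E', ?_⟩
  have hf : ∀ v, ∃ f : GraphProduct (E' v) (U v) →*
      GraphProduct (flGraph E W E') (fun p => U p.1 p.2), ∀ a u,
      f (GraphProduct.of (E' v) (U v) a u) =
        GraphProduct.of (flGraph E W E') (fun p => U p.1 p.2) ⟨v, a⟩ u := by
    intro v
    exact GraphProduct.exists_lift (E' v) (U v)
      (fun a => GraphProduct.of (flGraph E W E') (fun p => U p.1 p.2) ⟨v, a⟩) fun a b hab g g' =>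
        GraphProduct.commute (flGraph E W E') (fun p => U p.1 p.2) (v := ⟨v, a⟩) (w := ⟨v, b⟩)
          (Or.inr ⟨v, a, b, hab, rfl, rfl⟩) g g'
  choose f hf using hf
  have hcomm : ∀ v w, E.Adj v w → ∀ (g : GraphProduct (E' v) (U v))
      (g' : GraphProduct (E' w) (U w)), Commute (f v g) (f w g') := by
    intro v w hvw g g'
    refine fl_comm (f v) (f w g') (fun a x => ?_) g
    refine (fl_comm (f w) (f v (GraphProduct.of (E' v) (U v) a x)) (fun b y => ?_) g').symm
    rw [hf, hf]
    exact GraphProduct.commute (flGraph E W E') (fun p => U p.1 p.2) (v := ⟨w, b⟩) (w := ⟨v, a⟩)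
      (Or.inl hvw.symm) y x
  obtain ⟨F, hF⟩ := GraphProduct.exists_lift E (fun v => GraphProduct (E' v) (U v)) f hcomm
  obtain ⟨B, hB⟩ := GraphProduct.exists_lift (flGraph E W E') (fun p => U p.1 p.2)
    (fun p => (GraphProduct.of E (fun v => GraphProduct (E' v) (U v)) p.1).comp
      (GraphProduct.of (E' p.1) (U p.1) p.2)) (by
        rintro p q (h | ⟨v, a, b, h, rfl, rfl⟩) g g'
        · exact GraphProduct.commute E (fun v => GraphProduct (E' v) (U v)) h _ _
        · exact (GraphProduct.commute (E' v) (U v) h g g').map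
            (GraphProduct.of E (fun v => GraphProduct (E' v) (U v)) v))
  refine ⟨MonoidHom.toMulEquiv F B ?_ ?_⟩
  · refine GraphProduct.hom_ext E _ _ _ fun v x => ?_
    show B (F (GraphProduct.of E _ v x)) = GraphProduct.of E _ v x
    rw [hF]
    have h1 : B.comp (f v) = GraphProduct.of E (fun v => GraphProduct (E' v) (U v)) v := by
      refine GraphProduct.hom_ext (E' v) (U v) _ _ fun a u => ?_
      show B (f v (GraphProduct.of (E' v) (U v) a u)) = _
      rw [hf, hB]
      rfl
    exact DFunLike.congr_fun h1 x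
  · refine GraphProduct.hom_ext (flGraph E W E') _ _ _ fun p u => ?_
    show F (B (GraphProduct.of (flGraph E W E') _ p u)) = GraphProduct.of (flGraph E W E') _ p u
    rw [hB]
    show F (GraphProduct.of E _ p.1 (GraphProduct.of (E' p.1) (U p.1) p.2 u)) = _
    rw [hF, hf]

/-- isomorphic vertex groups -/
private theorem fl_congr {V : Type u} (E : SimpleGraph V) (G G' : V → Type u)
    [∀ v, Group (G v)] [∀ v, Group (G' v)] (e : ∀ v, G v ≃* G' v) :
    Nonempty (GraphProduct E G ≃* GraphProduct E G') := by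
  obtain ⟨F, hF⟩ := GraphProduct.exists_lift E G
    (fun v => (GraphProduct.of E G' v).comp (e v).toMonoidHom)
    fun v w h g g' => GraphProduct.commute E G' h _ _
  obtain ⟨B, hB⟩ := GraphProduct.exists_lift E G'
    (fun v => (GraphProduct.of E G v).comp (e v).symm.toMonoidHom)
    fun v w h g g' => GraphProduct.commute E G h _ _
  refine ⟨MonoidHom.toMulEquiv F B ?_ ?_⟩
  · refine GraphProduct.hom_ext E _ _ _ fun v x => ?_
    show B (F (GraphProduct.of E G v x)) = GraphProduct.of E G v x
    rw [hF]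
    show B (GraphProduct.of E G' v (e v x)) = _
    rw [hB]
    show GraphProduct.of E G v ((e v).symm (e v x)) = _
    rw [MulEquiv.symm_apply_apply]
  · refine GraphProduct.hom_ext E _ _ _ fun v x => ?_
    show F (B (GraphProduct.of E G' v x)) = GraphProduct.of E G' v x
    rw [hB]
    show F (GraphProduct.of E G v ((e v).symm x)) = _
    rw [hF]
    show GraphProduct.of E G' v (e v ((e v).symm x)) = _
    rw [MulEquiv.apply_symm_apply]

private theorem fl_single (G : Type u) [Group G] :
    Nonempty (G ≃* GraphProduct (⊥ : SimpleGraph PUnit.{u + 1}) fun _ => G) := by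
  obtain ⟨B, hB⟩ := GraphProduct.exists_lift (⊥ : SimpleGraph PUnit.{u + 1}) (fun _ => G)
    (fun _ => MonoidHom.id G) fun v w h => absurd h (by simp)
  refine ⟨MonoidHom.toMulEquiv (GraphProduct.of (⊥ : SimpleGraph PUnit.{u + 1}) (fun _ => G)
    PUnit.unit) B ?_ ?_⟩
  · ext x
    exact hB PUnit.unit x
  · refine GraphProduct.hom_ext _ _ _ _ fun v x => ?_
    show GraphProduct.of (⊥ : SimpleGraph PUnit.{u + 1}) (fun _ => G) PUnit.unit
      (B (GraphProduct.of (⊥ : SimpleGraph PUnit.{u + 1}) (fun _ => G) v x)) =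
        GraphProduct.of (⊥ : SimpleGraph PUnit.{u + 1}) (fun _ => G) v x
    rw [hB]
    rfl

theorem It.flat {C : (G : Type u) → [Group G] → Prop} {G : Type u} [Group G] (h : It C G) :
    ∃ (V : Type u) (_ : Finite V) (E : SimpleGraph V) (U : V → Type u) (_ : ∀ v, Group (U v)),
      (∀ v, C (U v)) ∧ Nonempty (G ≃* GraphProduct E U) := by
  induction h with
  | base G h =>
    exact ⟨PUnit.{u + 1}, inferInstance, ⊥, fun _ => G, fun _ => inferInstance, fun _ => h,
      fl_single G⟩
  | prod V E G h ih =>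
    choose W hW E' U hU hC e using ih
    obtain ⟨E'', ⟨e'⟩⟩ := GraphProduct.flatten E W E' U
    obtain ⟨e''⟩ := fl_congr E G (fun v => GraphProduct (E' v) (U v)) fun v => (e v).some
    exact ⟨Σ v, W v, inferInstance, E'', fun p => U p.1 p.2, fun p => hU p.1 p.2,
      fun p => hC p.1 p.2, ⟨e''.trans e'⟩⟩

end Pool.Agent.H36.GX
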