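import Pool.Agent.H36.GX.Base
import Pool.Agent.H66.NCL.Words

/-!
# Project GX: labelled words
-/

set_option autoImplicit false

namespace Pool.Agent.H36.GX

open Pool.Agent.H66.NCL

universe u v w

private theorem w_nil {V : Type u} {X : Type v} [Group X] (ω : List (V × X)) : lcf ω [] = 1 := by
  cases ω <;> rw [lcf]

private theorem w_nil_cons {V : Type u} {X : Type v} [Group X] (q : V × X) (L : List (V × X)) :
    lcf [] (q :: L) = 0 := by rw [lcf]

open Classical in
private theorem w_pos {V : Type u} {X : Type v} [Group X] (p q : V × X) (ω L : List (V × X))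
    (h : q.1 = p.1) : lcf (p :: ω) (q :: L) = lcf ω ((p.1, p.2⁻¹ * q.2) :: L) +
      ((if q.2 = p.2 then 1 else 0) - (if q.2 = 1 then 1 else 0)) * lcf ω L := by
  rw [lcf, if_pos h]

private theorem w_neg {V : Type u} {X : Type v} [Group X] (p q : V × X) (ω L : List (V × X))
    (h : q.1 ≠ p.1) : lcf (p :: ω) (q :: L) = lcf ω (q :: L) := by
  rw [lcf, if_neg h]

/-- (a) -/
private theorem w_sub {V : Type u} {X : Type v} [Group X] (ω L : List (V × X)) (h : lcf ω L ≠ 0) :
    (L.map Prod.fst).Sublist (ω.map Prod.fst) := by
  induction ω generalizing L with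
  | nil =>
    cases L with
    | nil => exact List.Sublist.refl _
    | cons q L => exact absurd (w_nil_cons q L) h
  | cons p ω ih =>
    cases L with
    | nil => exact List.nil_sublist _
    | cons q L =>
      by_cases hqp : q.1 = p.1
      · rw [w_pos p q ω L hqp] at h
        by_cases h1 : lcf ω ((p.1, p.2⁻¹ * q.2) :: L) = 0
        · rw [h1, zero_add] at h
          have h2 := ih L (right_ne_zero_of_mul h)
          rw [List.map_cons, List.map_cons, hqp]
          exact h2.cons_cons _
        · have h2 := ih _ h1
          rw [List.map_cons, List.map_cons, hqp]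
          rw [List.map_cons] at h2
          exact h2.cons _
      · rw [w_neg p q ω L hqp] at h
        exact (ih _ h).cons _

open Classical in
/-- number of letters with a given vertex -/
private noncomputable def w_ct {V : Type u} {X : Type v} (v : V) (L : List (V × X)) : ℕ :=
  (L.filter fun p => decide (p.1 = v)).length

private theorem w_ct_nil {V : Type u} {X : Type v} (v : V) : w_ct v ([] : List (V × X)) = 0 := rfl

open Classical in
private theorem w_ct_cons {V : Type u} {X : Type v} (v : V) (p : V × X) (L : List (V × X)) :
    w_ct v (p :: L) = w_ct v L + if p.1 = v then 1 else 0 := by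
  unfold w_ct
  split_ifs with h
  · rw [List.filter_cons_of_pos (by simpa using h), List.length_cons]
  · rw [List.filter_cons_of_neg (by simpa using h)]
    rfl

open Classical in
private theorem w_ct_count {V : Type u} {X : Type v} (v : V) (L : List (V × X)) :
    w_ct v L = (L.map Prod.fst).count v := by
  induction L with
  | nil => rfl
  | cons p L ih =>
    rw [w_ct_cons, List.map_cons, List.count_cons, ih]
    congr 1
    simp only [beq_iff_eq]

private theorem w_ct_le {V : Type u} {X : Type v} (v : V) {L M : List (V × X)}
    (h : (L.map Prod.fst).Sublist (M.map Prod.fst)) : w_ct v L ≤ w_ct v M := by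
  classical
  rw [w_ct_count, w_ct_count]
  exact h.count_le v

open Classical in
/-- (b) -/
private theorem w_filter {V : Type u} {X : Type v} [Group X] (s r : V) (ω L : List (V × X))
    (h : lcf ω L ≠ 0) (h1 : ∀ p ∈ L, p.1 = s ∨ p.1 = r → p.2 ≠ 1)
    (hs : w_ct s L = w_ct s ω) (hr : w_ct r L = w_ct r ω) :
    L.filter (fun p => decide (p.1 = s ∨ p.1 = r)) =
      ω.filter (fun p => decide (p.1 = s ∨ p.1 = r)) := by
  induction ω generalizing L with
  | nil =>
    cases L with
    | nil => rfl
    | cons q L => exact absurd (w_nil_cons q L) h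
  | cons p ω ih =>
    have key : (p.1 = s ∨ p.1 = r) → ∀ M : List (V × X), lcf ω M ≠ 0 →
        M.map Prod.fst = L.map Prod.fst → False := by
      intro hp M hM hML
      have e1 := w_sub ω M hM
      rw [hML] at e1
      have e2 := w_ct_le s e1
      have e3 := w_ct_le r e1
      rw [w_ct_cons] at hs hr
      rcases hp with hp | hp
      · rw [if_pos hp] at hs
        omega
      · rw [if_pos hp] at hr
        omega
    cases L with
    | nil =>
      have hp : ¬ (p.1 = s ∨ p.1 = r) := by
        intro hp
        exact key hp [] (by rw [w_nil]; exact one_ne_zero) rfl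
      rw [List.filter_cons_of_neg (by simpa using hp)]
      rw [w_ct_cons, if_neg (fun h' => hp (Or.inl h'))] at hs
      rw [w_ct_cons, if_neg (fun h' => hp (Or.inr h'))] at hr
      exact ih [] (by rw [w_nil]; exact one_ne_zero) h1 (by simpa using hs) (by simpa using hr)
    | cons q L =>
      by_cases hqp : q.1 = p.1
      · rw [w_pos p q ω L hqp] at h
        rw [w_ct_cons, w_ct_cons, hqp] at hs hr
        by_cases hp : p.1 = s ∨ p.1 = r
        · have h2 : lcf ω ((p.1, p.2⁻¹ * q.2) :: L) = 0 := by
            by_contra h2
            exact key hp _ h2 (by rw [List.map_cons, List.map_cons, hqp])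
          rw [h2, zero_add] at h
          have h3 := right_ne_zero_of_mul h
          have h4 := left_ne_zero_of_mul h
          have h5 : q.2 ≠ 1 := h1 q List.mem_cons_self (by rw [hqp]; exact hp)
          have h6 : q.2 = p.2 := by
            by_contra h6
            rw [if_neg h6, if_neg h5] at h4
            exact h4 (by norm_num)
          have h7 : q = p := Prod.ext hqp h6
          rw [h7, List.filter_cons_of_pos (by simpa using hp),
            List.filter_cons_of_pos (by simpa using hp)]
          rw [ih L h3 (fun x hx => h1 x (List.mem_cons_of_mem _ hx)) (by omega) (by omega)]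
        · have hq : ¬ (q.1 = s ∨ q.1 = r) := by rw [hqp]; exact hp
          rw [List.filter_cons_of_neg (by simpa using hq),
            List.filter_cons_of_neg (by simpa using hp)]
          by_cases h2 : lcf ω ((p.1, p.2⁻¹ * q.2) :: L) = 0
          · rw [h2, zero_add] at h
            have h3 := right_ne_zero_of_mul h
            exact ih L h3 (fun x hx => h1 x (List.mem_cons_of_mem _ hx)) (by omega) (by omega)
          · have h3 := ih _ h2 (by
              intro x hx hxs
              rcases List.mem_cons.1 hx with hx | hx
              · rw [hx] at hxs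
                exact absurd hxs hp
              · exact h1 x (List.mem_cons_of_mem _ hx) hxs)
              (by rw [w_ct_cons, if_neg (fun h' => hp (Or.inl h'))]
                  rw [if_neg (fun h' => hp (Or.inl h'))] at hs
                  exact hs)
              (by rw [w_ct_cons, if_neg (fun h' => hp (Or.inr h'))]
                  rw [if_neg (fun h' => hp (Or.inr h'))] at hr
                  exact hr)
            rw [List.filter_cons_of_neg (by simpa using hp)] at h3
            exact h3
      · rw [w_neg p q ω L hqp] at h
        have hp : ¬ (p.1 = s ∨ p.1 = r) := fun hp => key hp _ h rfl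
        rw [List.filter_cons_of_neg (l := ω) (by simpa using hp)]
        rw [w_ct_cons s p, if_neg (fun h' => hp (Or.inl h')), add_zero] at hs
        rw [w_ct_cons r p, if_neg (fun h' => hp (Or.inr h')), add_zero] at hr
        exact ih _ h h1 hs hr

open Classical in
/-- a sublist with the same numbers of letters has the same filter -/
private theorem w_filter_sub {V : Type u} {X : Type v} (s r : V) (L M : List (V × X))
    (hM : L.Sublist M) (e1 : w_ct s L = w_ct s M) (e2 : w_ct r L = w_ct r M) :
    L.filter (fun p => decide (p.1 = s ∨ p.1 = r)) =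
      M.filter (fun p => decide (p.1 = s ∨ p.1 = r)) := by
  induction hM with
  | slnil => rfl
  | cons a hM ih =>
    have f1 := w_ct_le s (hM.map Prod.fst)
    have f2 := w_ct_le r (hM.map Prod.fst)
    rw [w_ct_cons] at e1 e2
    have has : a.1 ≠ s := by
      intro h'
      rw [if_pos h'] at e1
      omega
    have har : a.1 ≠ r := by
      intro h'
      rw [if_pos h'] at e2
      omega
    rw [if_neg has] at e1
    rw [if_neg har] at e2
    rw [List.filter_cons_of_neg (by simp [has, har])]
    exact ih (by simpa using e1) (by simpa using e2)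
  | cons_cons a hM ih =>
    rw [w_ct_cons, w_ct_cons] at e1 e2
    have ih' := ih (by omega) (by omega)
    by_cases hsa : a.1 = s ∨ a.1 = r
    · rw [List.filter_cons_of_pos (by simpa using hsa), List.filter_cons_of_pos (by simpa using hsa), ih']
    · rw [List.filter_cons_of_neg (by simpa using hsa), List.filter_cons_of_neg (by simpa using hsa), ih']

/-- (c) -/
private theorem w_one {V : Type u} {X : Type v} [Group X] (ω L : List (V × X))
    (hL : L.Sublist ω) (h1 : ∀ p ∈ L, p.2 ≠ 1)
    (hN : Words_N (ω.map Prod.fst) (L.map Prod.fst) = 1) : lcf ω L = 1 := by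
  classical
  induction ω generalizing L with
  | nil =>
    cases L with
    | nil => exact w_nil _
    | cons q L => exact absurd (List.eq_nil_of_sublist_nil hL) (List.cons_ne_nil _ _)
  | cons p ω ih =>
    cases L with
    | nil => exact w_nil _
    | cons q L =>
      rw [List.map_cons, List.map_cons, Words_N_cons] at hN
      by_cases hqp : q.1 = p.1
      · rw [w_pos p q ω L hqp]
        rw [if_pos hqp] at hN
        have h2 : Words_N (ω.map Prod.fst) (q.1 :: L.map Prod.fst) = 0 := by
          by_contra h2
          have h3 := Words_N_pos.1 (Nat.pos_of_ne_zero h2)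
          have h4 := Words_N_pos.2 ((List.sublist_cons_self q.1 (L.map Prod.fst)).trans h3)
          omega
        have h3 : lcf ω ((p.1, p.2⁻¹ * q.2) :: L) = 0 := by
          by_contra h3
          have h4 := Words_N_pos.2 (w_sub _ _ h3)
          rw [List.map_cons, ← hqp] at h4
          omega
        have h4 : ¬ (q :: L).Sublist ω := by
          intro h4
          have h5 := Words_N_pos.2 (h4.map Prod.fst)
          rw [List.map_cons] at h5
          omega
        have h5 : q = p ∧ L.Sublist ω := by
          cases hL with
          | cons _ h => exact absurd h h4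
          | cons_cons _ h => exact ⟨rfl, h⟩
        rw [h3, zero_add, if_pos (by rw [h5.1]), if_neg (h1 q List.mem_cons_self),
          ih L h5.2 (fun x hx => h1 x (List.mem_cons_of_mem _ hx)) (by omega)]
        norm_num
      · rw [w_neg p q ω L hqp]
        rw [if_neg hqp, add_zero] at hN
        have h5 : (q :: L).Sublist ω := by
          cases hL with
          | cons _ h => exact h
          | cons_cons _ h => exact absurd rfl hqp
        exact ih _ h5 h1 (by rw [List.map_cons]; exact hN)

theorem exists_lchain {V : Type u} {X : Type v} [Group X] (nc : V → V → Prop)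
    (hsymm : ∀ s r, nc s r → nc r s) (hirr : ∀ s, ¬ nc s s) (ω : List (V × X))
    (h1 : ∀ p ∈ ω, p.2 ≠ 1) (hω : Red nc (ω.map Prod.fst)) (s r : V) (hsr : nc s r ∨ s = r) :
    ∃ L : List (V × X), L.Sublist ω ∧ (L.map Prod.fst).IsChain nc ∧
      (∀ v, v = s ∨ v = r → (L.filter fun p => (open Classical in decide (p.1 = v))).length =
        (ω.filter fun p => (open Classical in decide (p.1 = v))).length) ∧ lcf ω L = 1 := by
  classical
  obtain ⟨L₀, e1, e2, e3, e4, e5⟩ := exists_chain nc hsymm hirr (ω.map Prod.fst) hω s r hsr
  rw [List.sublist_map_iff] at e1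
  obtain ⟨L, e6, e7⟩ := e1
  subst e7
  rw [← w_ct_count, ← w_ct_count] at e3 e4
  rw [Words_N_eq] at e5
  refine ⟨L, e6, e2, ?_, w_one ω L e6 (fun x hx => h1 x (e6.subset hx)) e5⟩
  rintro v (rfl | rfl)
  · exact e3
  · exact e4

theorem lprod_eq {V : Type u} {X : Type v} [Group X] {M : Type w} [Monoid M] (nc : V → V → Prop)
    (hsymm : ∀ s r, nc s r → nc r s) (φ : V × X → M)
    (hφ : ∀ p q : V × X, p.1 ≠ q.1 → ¬ nc p.1 q.1 → φ p * φ q = φ q * φ p) (ω ω' : List (V × X))
    (h1 : ∀ p ∈ ω, p.2 ≠ 1) (hlen : ω'.length ≤ ω.length)
    (h : ∀ s r, (nc s r ∨ s = r) → ∃ L : List (V × X), L.Sublist ω ∧ lcf ω' L ≠ 0 ∧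
      ∀ v, v = s ∨ v = r → (L.filter fun p => (open Classical in decide (p.1 = v))).length =
        (ω.filter fun p => (open Classical in decide (p.1 = v))).length) :
    (ω.map φ).prod = (ω'.map φ).prod := by
  classical
  have hperm : (ω.map Prod.fst).Perm (ω'.map Prod.fst) := by
    have h2 : (ω.map Prod.fst).Subperm (ω'.map Prod.fst) := by
      rw [List.subperm_ext_iff]
      intro x _
      obtain ⟨L, h2, h3, h4⟩ := h x x (Or.inr rfl)
      have h5 : w_ct x L = w_ct x ω := h4 x (Or.inl rfl)
      rw [w_ct_count, w_ct_count] at h5
      rw [← h5]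
      exact (w_sub _ _ h3).count_le x
    exact h2.perm_of_length_le (by simpa using hlen)
  have hct : ∀ x, w_ct x ω = w_ct x ω' := by
    intro x
    rw [w_ct_count, w_ct_count]
    exact hperm.count_eq x
  have key : ∀ s r, (nc s r ∨ s = r) → ω.filter (fun p => decide (p.1 = s ∨ p.1 = r)) =
      ω'.filter (fun p => decide (p.1 = s ∨ p.1 = r)) := by
    intro s r hsr
    obtain ⟨L, h2, h3, h4⟩ := h s r hsr
    have h5 : w_ct s L = w_ct s ω := h4 s (Or.inl rfl)
    have h6 : w_ct r L = w_ct r ω := h4 r (Or.inr rfl)
    rw [← w_filter_sub s r L ω h2 h5 h6]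
    exact w_filter s r ω' L h3 (fun p hp _ => h1 p (h2.subset hp)) (h5.trans (hct s))
      (h6.trans (hct r))
  have key2 : ∀ p q : V × X, (nc p.1 q.1 ∨ p.1 = q.1) → ω.filter (fun x => decide (x = p ∨ x = q)) =
      ω'.filter (fun x => decide (x = p ∨ x = q)) := by
    intro p q hpq
    have e : ∀ M : List (V × X), M.filter (fun x => decide (x = p ∨ x = q)) =
        (M.filter (fun x => decide (x.1 = p.1 ∨ x.1 = q.1))).filter
          (fun x => decide (x = p ∨ x = q)) := by
      intro M
      rw [List.filter_filter]
      apply List.filter_congr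
      intro x _
      by_cases hx : x = p ∨ x = q
      · have hx' : x.1 = p.1 ∨ x.1 = q.1 := by
          rcases hx with rfl | rfl
          · exact Or.inl rfl
          · exact Or.inr rfl
        rw [decide_eq_true hx, decide_eq_true hx']
        rfl
      · rw [decide_eq_false hx]
        rfl
    rw [e ω, e ω', key p.1 q.1 hpq]
  have key3 : ∀ (M : List (V × X)) (p q : V × X) (d d' : ∀ x, Decidable (x = p ∨ x = q)),
      M.filter (fun x => @decide _ (d x)) = M.filter (fun x => @decide _ (d' x)) := by
    intro M p q d d'
    apply List.filter_congr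
    intro x _
    exact decide_eq_decide.2 Iff.rfl
  apply Words_prod (fun p q : V × X => nc p.1 q.1 ∨ p.1 = q.1) _ φ _ ω ω' _
    (fun p q hpq => (key3 ω p q _ _).trans ((key2 p q hpq).trans (key3 ω' p q _ _)))
  · rintro p q (hpq | hpq)
    · exact Or.inl (hsymm _ _ hpq)
    · exact Or.inr hpq.symm
  · intro p q hpq
    exact hφ p q (fun h' => hpq (Or.inr h')) (fun h' => hpq (Or.inl h'))
  · rw [List.perm_iff_count]
    intro p
    have e := congrArg (List.count p) (key2 p p (Or.inr rfl))
    rw [List.count_filter (by simp), List.count_filter (by simp)] at e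
    exact e

end Pool.Agent.H36.GX
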