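import Mathlib.GroupTheory.RegularWreathProduct
import Pool.Agent.H36.GX.GP
import Pool.Agent.H36.GX.Rho
import Pool.Agent.H36.GX.Words

/-!
# Project GX: reduced words are not trivial; functoriality of graph products
-/

set_option autoImplicit false

namespace Pool.Agent.H36.GX

open Pool.Agent.H66.NCL Pool.Agent.H36.OX

universe u

/-- the element with value `a` at `1` -/
private def nfAt {M : Type u} [Group M] (a : M) (m : Multiplicative ℤ) :
    RegularWreathProduct M (Multiplicative ℤ) := ⟨fun j => if j = 1 then a else 1, m⟩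

private theorem nfAt_mul {M : Type u} [Group M] (a b : M) (m : Multiplicative ℤ) :
    nfAt a 1 * nfAt b m = nfAt (a * b) m := by
  apply RegularWreathProduct.ext
  · funext j
    rw [RegularWreathProduct.mul_left]
    show (if j = 1 then a else 1) * (if (1 : Multiplicative ℤ)⁻¹ * j = 1 then b else 1) =
      if j = 1 then a * b else 1
    rw [inv_one, one_mul]
    split_ifs
    · rfl
    · exact one_mul _
  · rw [RegularWreathProduct.mul_right]
    exact one_mul _

private theorem nf_pos (N : Type u) [Group N] (T : Type u) :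
    ∃ (Q : Type u) (_ : Group Q) (i : N →* Q) (x : T → Q) (Pos : Q → Prop), IsPos i x Pos := by
  classical
  let M := N × Multiplicative (T →₀ ℤ)
  let g : T → Multiplicative (T →₀ ℤ) := fun t => Multiplicative.ofAdd (Finsupp.single t 1)
  let z : Multiplicative ℤ := Multiplicative.ofAdd 1
  have key : ∀ (n : N) (t : T), nfAt ((n, 1) : M) 1 * nfAt ((1, g t) : M) z =
      nfAt ((n, g t) : M) z := by
    intro n t
    rw [nfAt_mul]
    congr 1
    exact Prod.ext (mul_one _) (one_mul _)
  refine ⟨RegularWreathProduct M (Multiplicative ℤ), inferInstance,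
    { toFun := fun n => nfAt ((n, 1) : M) 1
      map_one' := ?_
      map_mul' := ?_ }, fun t => nfAt ((1, g t) : M) z,
    fun q => ∀ j : Multiplicative ℤ, j.toAdd < 0 → q.left j = 1, ?_, ?_, ?_⟩
  · apply RegularWreathProduct.ext
    · funext j
      show (if j = 1 then ((1, 1) : M) else 1) = 1
      split_ifs <;> rfl
    · rfl
  · intro n n'
    rw [nfAt_mul, Prod.mk_mul_mk, mul_one]
  · intro j _
    rfl
  · intro n t q hq j hj
    show (nfAt ((n, 1) : M) 1 * nfAt ((1, g t) : M) z * q).left j = 1
    rw [key, RegularWreathProduct.mul_left]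
    show (if j = 1 then ((n, g t) : M) else 1) * q.left (z⁻¹ * j) = 1
    have h1 : j ≠ 1 := by
      rintro rfl
      exact lt_irrefl _ hj
    have h2 : (z⁻¹ * j).toAdd < 0 := by
      show -1 + j.toAdd < 0
      omega
    rw [if_neg h1, hq _ h2, one_mul]
  · intro n t q n' t' q' hq hq' he
    have he' : nfAt ((n, 1) : M) 1 * nfAt ((1, g t) : M) z * q =
      nfAt ((n', 1) : M) 1 * nfAt ((1, g t') : M) z * q' := he
    rw [key, key] at he'
    have h0 := congrArg (fun a => RegularWreathProduct.left a 1) he'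
    have h1 : ((n, g t) : M) * q.left (z⁻¹ * 1) = ((n', g t') : M) * q'.left (z⁻¹ * 1) := h0
    have h2 : (z⁻¹ * 1 : Multiplicative ℤ).toAdd < 0 := by
      show (-1 + 0 : ℤ) < 0
      norm_num
    rw [hq _ h2, hq' _ h2, mul_one, mul_one] at h1
    obtain ⟨h4, h5⟩ := Prod.mk.inj h1
    have h6 : t = t' := Finsupp.single_left_injective (one_ne_zero : (1 : ℤ) ≠ 0)
      (Multiplicative.ofAdd.injective h5)
    subst h4 h6
    exact ⟨rfl, rfl, mul_left_cancel he'⟩

private theorem nc_symm {V : Type u} (E : SimpleGraph V) (s r : V) (h : nc E s r) : nc E r s :=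
  ⟨h.1.symm, fun h' => h.2 h'.symm⟩

theorem gev_ne_one {V : Type u} [Finite V] (E : SimpleGraph V) (X : Type u) [Group X]
    (ω : List (V × X)) (h1 : ∀ p ∈ ω, p.2 ≠ 1) (h2 : Red (nc E) (ω.map Prod.fst))
    (h3 : ω ≠ []) : gev E X ω ≠ 1 := by
  classical
  intro hg
  obtain ⟨p, ω', rfl⟩ := List.exists_cons_of_ne_nil h3
  obtain ⟨L, -, hL2, hL3, hL4⟩ := exists_lchain (nc E) (nc_symm E) (fun s h => h.1 rfl)
    (p :: ω') h1 h2 p.1 p.1 (Or.inr rfl)
  have hL0 : L ≠ [] := by
    rintro rfl
    have h4 := hL3 p.1 (Or.inl rfl)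
    rw [List.filter_cons_of_pos (by simp), List.length_cons] at h4
    simp at h4
  obtain ⟨Q, _, i, x, Pos, hpos⟩ := nf_pos (⊤ : Subgroup X)
    (V × Option (V × (X ⧸ (⊤ : Subgroup X))))
  obtain ⟨I, _, _, ρ, hρ⟩ := exists_rho E X ⊤ Q i x Pos hpos
  obtain ⟨a, b, u, hu⟩ := hρ L hL2
  have h5 := hu (p :: ω')
  have h6 := hu []
  have h7 : gev E X ([] : List (V × X)) = 1 := rfl
  rw [hg, hL4] at h5
  obtain ⟨q, L', rfl⟩ := List.exists_cons_of_ne_nil hL0
  rw [h7, lcf, h5] at h6
  exact one_ne_zero h6

/-- the embedding in a graph product of equal groups -/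
private theorem nf_const {V : Type u} (E : SimpleGraph V) (G : V → Type u) [DecidableEq V]
    [∀ v, Group (G v)] : ∃ f : GraphProduct E G →* GraphProduct E (fun _ : V => ∀ v, G v),
      (∀ v g, f (GraphProduct.of E G v g) =
        GraphProduct.of E (fun _ : V => ∀ v, G v) v (Pi.mulSingle v g)) ∧
      Function.Injective f := by
  obtain ⟨F, hF⟩ := GraphProduct.exists_lift E G
    (fun v => (GraphProduct.of E (fun _ : V => ∀ v, G v) v).comp (MonoidHom.mulSingle G v))
    (fun v w hvw g g' => GraphProduct.commute E (fun _ : V => ∀ v, G v) hvw _ _)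
  obtain ⟨F', hF'⟩ := GraphProduct.exists_lift E (fun _ : V => ∀ v, G v)
    (fun v => (GraphProduct.of E G v).comp (Pi.evalMonoidHom G v))
    (fun v w hvw g g' => GraphProduct.commute E G hvw _ _)
  have h1 : F'.comp F = MonoidHom.id _ := by
    apply GraphProduct.hom_ext
    intro v x
    rw [MonoidHom.comp_apply, hF, MonoidHom.comp_apply, hF', MonoidHom.comp_apply,
      MonoidHom.id_apply, Pi.evalMonoidHom_apply, MonoidHom.mulSingle_apply, Pi.mulSingle_eq_same]
  exact ⟨F, fun v g => hF v g, Function.LeftInverse.injective (g := F') fun x =>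
    DFunLike.congr_fun h1 x⟩

private theorem nf_map {V : Type u} [Finite V] (E : SimpleGraph V) (X X' : Type u) [Group X]
    [Group X'] (φ : X →* X') (hφ : Function.Injective φ) :
    ∃ F : GraphProduct E (fun _ : V => X) →* GraphProduct E (fun _ : V => X'),
      (∀ v g, F (GraphProduct.of E (fun _ : V => X) v g) =
        GraphProduct.of E (fun _ : V => X') v (φ g)) ∧ Function.Injective F := by
  obtain ⟨F, hF⟩ := GraphProduct.exists_lift E (fun _ : V => X)
    (fun v => (GraphProduct.of E (fun _ : V => X') v).comp φ)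
    (fun v w hvw g g' => GraphProduct.commute E (fun _ : V => X') hvw _ _)
  have hgev : ∀ ω : List (V × X), F (gev E X ω) = gev E X' (ω.map fun p => (p.1, φ p.2)) := by
    intro ω
    unfold gev
    rw [map_list_prod, List.map_map, List.map_map]
    congr 1
    refine List.map_congr_left fun p _ => ?_
    exact hF p.1 p.2
  refine ⟨F, hF, (injective_iff_map_eq_one F).2 fun g hg => ?_⟩
  obtain ⟨ω, hω, h1, h2, -⟩ := exists_reduced E X g
  by_cases h3 : ω = []
  · rw [← hω, h3]
    rfl
  · exfalso
    refine gev_ne_one E X' (ω.map fun p => (p.1, φ p.2)) ?_ ?_ ?_ ?_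
    · intro p hp
      obtain ⟨q, hq, rfl⟩ := List.mem_map.1 hp
      intro h4
      exact h1 q hq (hφ (h4.trans (map_one φ).symm))
    · rw [List.map_map]
      exact h2
    · intro h4
      exact h3 (List.map_eq_nil_iff.1 h4)
    · rw [← hgev, hω, hg]

theorem GraphProduct.exists_map {V : Type u} [Finite V] (E : SimpleGraph V) (G G' : V → Type u)
    [∀ v, Group (G v)] [∀ v, Group (G' v)] (f : ∀ v, G v →* G' v)
    (hf : ∀ v, Function.Injective (f v)) :
    ∃ F : GraphProduct E G →* GraphProduct E G',
      (∀ v g, F (GraphProduct.of E G v g) = GraphProduct.of E G' v (f v g)) ∧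
      Function.Injective F := by
  classical
  obtain ⟨F, hF⟩ := GraphProduct.exists_lift E G
    (fun v => (GraphProduct.of E G' v).comp (f v))
    (fun v w hvw g g' => GraphProduct.commute E G' hvw _ _)
  obtain ⟨c, hc, hci⟩ := nf_const E G
  obtain ⟨c', hc', -⟩ := nf_const E G'
  let φ : (∀ v, G v) →* ∀ v, G' v :=
    { toFun := fun a v => f v (a v)
      map_one' := funext fun v => map_one (f v)
      map_mul' := fun a b => funext fun v => map_mul (f v) _ _ }
  have hφ : Function.Injective φ := fun a b h => funext fun v => hf v (congrFun h v)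
  obtain ⟨M, hM, hMi⟩ := nf_map E (∀ v, G v) (∀ v, G' v) φ hφ
  have h1 : c'.comp F = M.comp c := by
    apply GraphProduct.hom_ext
    intro v x
    rw [MonoidHom.comp_apply, MonoidHom.comp_apply, hF, hc, hM]
    show c' (GraphProduct.of E G' v (f v x)) = _
    rw [hc']
    congr 1
    funext w
    show Pi.mulSingle v (f v x) w = f w (Pi.mulSingle v x w)
    by_cases h : w = v
    · subst h
      rw [Pi.mulSingle_eq_same, Pi.mulSingle_eq_same]
    · rw [Pi.mulSingle_eq_of_ne h, Pi.mulSingle_eq_of_ne h, map_one]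
  refine ⟨F, fun v g => hF v g, fun a b hab => ?_⟩
  apply hci
  apply hMi
  have h2 := DFunLike.congr_fun h1 a
  have h3 := DFunLike.congr_fun h1 b
  rw [MonoidHom.comp_apply, MonoidHom.comp_apply] at h2 h3
  rw [← h2, ← h3, hab]

end Pool.Agent.H36.GX
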